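import Mathlib

/-!
# Intervals in `[0, 2π]` ordered like a given countable linear order
-/

open Filter Topology

noncomputable section

namespace Pool.Agent.helper29.KS

/-- strict total orders on `ℕ` -/
structure STO (r : ℕ → ℕ → Prop) : Prop where
  irrefl : ∀ n, ¬ r n n
  trans : ∀ l m n, r l m → r m n → r l n
  total : ∀ m n, r m n ∨ m = n ∨ r n m

/-- the length of the `n`-th interval -/
def len (n : ℕ) : ℝ := 2 * Real.pi * (1 / 2) ^ (n + 1)

theorem len_pos (n : ℕ) : 0 < len n := by
  unfold len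
  have := Real.pi_pos
  positivity

theorem hasSum_len : HasSum len (2 * Real.pi) := by
  have h := (hasSum_geometric_two' (a := 2 * Real.pi))
  have e : len = fun n => 2 * Real.pi / 2 / 2 ^ n := by
    funext n
    unfold len
    rw [one_div, inv_pow, pow_succ]
    field_simp
  rw [e]
  exact h

theorem summable_len : Summable len := hasSum_len.summable

open Classical in
/-- total length of a set of intervals -/
def tot (A : Set ℕ) : ℝ := ∑' n, A.indicator len n

theorem summable_ind (A : Set ℕ) : Summable (A.indicator len) := summable_len.indicator A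

theorem tot_nonneg (A : Set ℕ) : 0 ≤ tot A :=
  tsum_nonneg (fun n => Set.indicator_nonneg (fun n _ => (len_pos n).le) n)

theorem tot_univ : tot Set.univ = 2 * Real.pi := by
  rw [tot, Set.indicator_univ, hasSum_len.tsum_eq]

theorem tot_empty : tot ∅ = 0 := by
  simp [tot]

theorem tot_mono {A B : Set ℕ} (h : A ⊆ B) : tot A ≤ tot B :=
  (summable_ind A).tsum_le_tsum (fun n => Set.indicator_le_indicator_of_subset h
    (fun n => (len_pos n).le) n) (summable_ind B)

theorem tot_union {A B : Set ℕ} (h : Disjoint A B) : tot (A ∪ B) = tot A + tot B := by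
  rw [tot, tot, tot, ← (summable_ind A).tsum_add (summable_ind B)]
  congr 1
  funext n
  rw [Set.indicator_union_of_disjoint h]

theorem tot_singleton (n : ℕ) : tot {n} = len n := by
  rw [tot, tsum_eq_single n]
  · simp
  · intro m hm
    simp [hm]

theorem tot_compl (A : Set ℕ) : tot A + tot Aᶜ = 2 * Real.pi := by
  rw [← tot_univ, ← Set.union_compl_self A, tot_union disjoint_compl_right]

theorem tot_le (A : Set ℕ) : tot A ≤ 2 * Real.pi := by
  rw [← tot_univ]; exact tot_mono (Set.subset_univ A)

theorem tot_lt {A B : Set ℕ} (h : A ⊂ B) : tot A < tot B := by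
  obtain ⟨hAB, n, hn, hn'⟩ := Set.ssubset_iff_exists.1 h
  have h1 : A ∪ {n} ⊆ B := Set.union_subset hAB (by simpa using hn)
  have h2 : tot (A ∪ {n}) = tot A + len n := by
    rw [tot_union (by simpa using hn'), tot_singleton]
  have h3 := tot_mono h1
  have h4 := len_pos n
  linarith

/-- finite subsets bound the total -/
theorem tot_le_of_finset {A : Set ℕ} {c : ℝ} (h : ∀ s : Finset ℕ, ↑s ⊆ A → ∑ n ∈ s, len n ≤ c) :
    tot A ≤ c := by
  classical
  apply (summable_ind A).tsum_le_of_sum_le
  intro s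
  rw [Finset.sum_indicator_eq_sum_filter s (fun _ => len) (fun _ => A) (fun n => n)]
  apply h
  intro n hn
  simpa using (Finset.mem_filter.1 hn).2

theorem tot_finset (s : Finset ℕ) : tot (s : Set ℕ) = ∑ n ∈ s, len n := by
  rw [tot, tsum_eq_sum (s := s)]
  · apply Finset.sum_congr rfl
    intro n hn
    rw [Set.indicator_of_mem (by simpa using hn)]
  · intro n hn
    rw [Set.indicator_of_notMem (by simpa using hn)]

section order

variable {r : ℕ → ℕ → Prop} (hr : STO r)

/-- left endpoint of the `n`-th interval -/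
def lft (r : ℕ → ℕ → Prop) (n : ℕ) : ℝ := tot {m | r m n}

/-- right endpoint of the `n`-th interval -/
def rgt (r : ℕ → ℕ → Prop) (n : ℕ) : ℝ := lft r n + len n

theorem lft_nonneg (n : ℕ) : 0 ≤ lft r n := tot_nonneg _

theorem lft_lt_rgt (n : ℕ) : lft r n < rgt r n := by
  have := len_pos n
  unfold rgt; linarith

include hr

theorem rgt_eq (n : ℕ) : rgt r n = tot ({m | r m n} ∪ {n}) := by
  rw [tot_union (by simpa using hr.irrefl n), tot_singleton]; rfl

theorem rgt_le (n : ℕ) : rgt r n ≤ 2 * Real.pi := by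
  rw [rgt_eq hr]; exact tot_le _

theorem rgt_le_lft {m n : ℕ} (h : r m n) : rgt r m ≤ lft r n := by
  rw [rgt_eq hr]
  apply tot_mono
  rintro k (hk | hk)
  · exact hr.trans _ _ _ hk h
  · rw [Set.mem_singleton_iff] at hk
    rw [hk]; exact h

theorem lft_lt_iff {m n : ℕ} : lft r m < lft r n ↔ r m n := by
  constructor
  · intro h
    rcases hr.total m n with h1 | h1 | h1
    · exact h1
    · rw [h1] at h; exact absurd h (lt_irrefl _)
    · have := rgt_le_lft hr h1
      have := lft_lt_rgt (r := r) n
      linarith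
  · intro h
    exact (lft_lt_rgt m).trans_le (rgt_le_lft hr h)

/-- a point outside all intervals is the total length of the intervals on its left -/
theorem eq_tot_of_notMem {x : ℝ} (hx0 : 0 ≤ x) (hx1 : x ≤ 2 * Real.pi)
    (hx : ∀ n, x ∉ Set.Ioo (lft r n) (rgt r n)) : x = tot {n | rgt r n ≤ x} := by
  obtain ⟨A, hA⟩ : ∃ A : Set ℕ, A = {n | rgt r n ≤ x} := ⟨_, rfl⟩
  rw [← hA]
  have hA' : ∀ n, n ∉ A → x ≤ lft r n := by
    intro n hn
    rw [hA] at hn
    by_contra hcon
    exact hx n ⟨not_le.1 hcon, not_le.1 hn⟩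
  have hex : ∀ s : Finset ℕ, s.Nonempty → (∃ n ∈ s, ∀ m ∈ s, m ≠ n → r m n) ∧
      (∃ n ∈ s, ∀ m ∈ s, m ≠ n → r n m) := by
    intro s hs
    obtain ⟨n, hn, hmax⟩ := s.exists_max_image (lft r) hs
    obtain ⟨k, hk, hmin⟩ := s.exists_min_image (lft r) hs
    refine ⟨⟨n, hn, fun m hm hmn => ?_⟩, ⟨k, hk, fun m hm hmn => ?_⟩⟩
    · rcases hr.total m n with h | h | h
      · exact h
      · exact absurd h hmn
      · exact absurd ((lft_lt_iff hr).2 h) (not_lt.2 (hmax m hm))
    · rcases hr.total k m with h | h | h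
      · exact h
      · exact absurd h.symm hmn
      · exact absurd ((lft_lt_iff hr).2 h) (not_lt.2 (hmin m hm))
  have h1 : tot A ≤ x := by
    apply tot_le_of_finset
    intro s hs
    rcases s.eq_empty_or_nonempty with rfl | hne
    · simpa using hx0
    obtain ⟨⟨n, hn, hn'⟩, _⟩ := hex s hne
    have h2 : rgt r n ≤ x := by
      have := hs hn
      rw [hA] at this
      exact this
    refine le_trans ?_ h2
    rw [rgt_eq hr, ← tot_finset]
    apply tot_mono
    intro m hm
    by_cases hmn : m = n
    · exact Or.inr hmn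
    · exact Or.inl (hn' m hm hmn)
  have h2 : tot Aᶜ ≤ 2 * Real.pi - x := by
    apply tot_le_of_finset
    intro s hs
    rcases s.eq_empty_or_nonempty with rfl | hne
    · simpa using hx1
    obtain ⟨_, ⟨n, hn, hn'⟩⟩ := hex s hne
    have h3 : x ≤ lft r n := hA' n (hs hn)
    have h4 : ∑ m ∈ s, len m + lft r n ≤ 2 * Real.pi := by
      rw [← tot_finset, lft, ← tot_union]
      · exact tot_le _
      · rw [Set.disjoint_left]
        intro m hm hm'
        by_cases hmn : m = n
        · rw [hmn] at hm'; exact hr.irrefl n hm'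
        · exact hr.irrefl n (hr.trans _ _ _ (hn' m hm hmn) hm')
    linarith
  have h3 := tot_compl A
  linarith

/-- lower sets -/
def Low (r : ℕ → ℕ → Prop) : Set (Set ℕ) := {A | ∀ m n, r m n → n ∈ A → m ∈ A}

omit hr in
/-- the exceptional set -/
def Exc (r : ℕ → ℕ → Prop) : Set ℝ :=
  {x | 0 ≤ x ∧ x ≤ 2 * Real.pi ∧ ∀ n, x ∉ Set.Ioo (lft r n) (rgt r n)}

theorem low_total {A B : Set ℕ} (hA : A ∈ Low r) (hB : B ∈ Low r) : A ⊆ B ∨ B ⊆ A := by
  by_contra hcon
  push Not at hcon
  obtain ⟨h1, h2⟩ := hcon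
  obtain ⟨a, ha, ha'⟩ := Set.not_subset.1 h1
  obtain ⟨b, hb, hb'⟩ := Set.not_subset.1 h2
  rcases hr.total a b with h | h | h
  · exact ha' (hB a b h hb)
  · rw [h] at ha'; exact ha' hb
  · exact hb' (hA b a h ha)

theorem tot_injOn_low : Set.InjOn tot (Low r) := by
  intro A hA B hB hAB
  by_contra hne
  rcases low_total hr hA hB with h | h
  · have := tot_lt (lt_of_le_of_ne h hne)
    linarith
  · have := tot_lt (lt_of_le_of_ne h (Ne.symm hne))
    linarith

theorem tot_mem_exc {A : Set ℕ} (hA : A ∈ Low r) : tot A ∈ Exc r := by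
  refine ⟨tot_nonneg A, tot_le A, fun n hn => ?_⟩
  by_cases h : n ∈ A
  · have h1 : rgt r n ≤ tot A := by
      rw [rgt_eq hr]
      apply tot_mono
      rintro m (hm | hm)
      · exact hA m n hm h
      · rw [Set.mem_singleton_iff] at hm
        rw [hm]; exact h
    exact absurd hn.2 (not_lt.2 h1)
  · have h1 : tot A ≤ lft r n := by
      apply tot_mono
      intro m hm
      rcases hr.total m n with h2 | h2 | h2
      · exact h2
      · rw [h2] at hm; exact absurd hm h
      · exact absurd (hA n m h2 hm) h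
    exact absurd hn.1 (not_lt.2 h1)

theorem exc_eq : Exc r = tot '' Low r := by
  ext x
  constructor
  · rintro ⟨h0, h1, h2⟩
    refine ⟨{n | rgt r n ≤ x}, ?_, (eq_tot_of_notMem hr h0 h1 h2).symm⟩
    intro m n hmn hn
    have hn' : rgt r n ≤ x := hn
    show rgt r m ≤ x
    have h3 := rgt_le_lft hr hmn
    have h4 := lft_lt_rgt (r := r) n
    linarith
  · rintro ⟨A, hA, rfl⟩
    exact tot_mem_exc hr hA

theorem exc_countable_iff : (Exc r).Countable ↔ (Low r).Countable := by
  rw [exc_eq hr]
  constructor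
  · intro h
    exact Set.countable_of_injective_of_countable_image (tot_injOn_low hr) h
  · intro h
    exact h.image _

/-- the intervals are dense -/
theorem dense_intervals {x y : ℝ} (hx : 0 ≤ x) (hxy : x < y) (hy : y ≤ 2 * Real.pi) :
    ∃ n, ∃ z ∈ Set.Ioo x y, z ∈ Set.Ioo (lft r n) (rgt r n) := by
  by_contra hcon
  push Not at hcon
  -- two points of (x, y) lie in the exceptional set with the same lower set
  obtain ⟨z, hz⟩ := exists_between hxy
  obtain ⟨w, hw⟩ := exists_between hz.2
  have hwm : w ∈ Set.Ioo x y := ⟨hz.1.trans hw.1, hw.2⟩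
  have e1 := eq_tot_of_notMem hr (hx.trans hz.1.le) (hz.2.le.trans hy) (fun n => hcon n z hz)
  have e2 := eq_tot_of_notMem hr (hx.trans hwm.1.le) (hwm.2.le.trans hy) (fun n => hcon n w hwm)
  have h3 : {n | rgt r n ≤ z} = {n | rgt r n ≤ w} := by
    ext n
    constructor
    · intro (h : rgt r n ≤ z)
      exact h.trans hw.1.le
    · intro (h : rgt r n ≤ w)
      by_contra h4
      have h4' : z < rgt r n := not_le.1 h4
      -- then rgt is in (z, w], so points slightly left of it are in the interval
      have h5 : max z (lft r n) < rgt r n := max_lt h4' (lft_lt_rgt n)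
      obtain ⟨v, hv⟩ := exists_between h5
      exact hcon n v ⟨hz.1.trans_le ((le_max_left _ _).trans hv.1.le),
        hv.2.trans_le (h.trans hwm.2.le)⟩ ⟨(le_max_right _ _).trans_lt hv.1, hv.2⟩
  rw [h3, ← e2] at e1
  exact absurd e1 hw.1.ne

end order

end Pool.Agent.helper29.KS
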