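import Mathlib

/-!
# Fixed point free order automorphisms are conjugate
-/

noncomputable section

namespace Pool.Agent.helper29.KS

section abs

variable {α : Type*} [LinearOrder α] (P : α ≃o α) (hP : ∀ x, x < P x)

include hP

theorem zpow_strictMono (a : α) : StrictMono (fun n : ℤ => (P ^ n) a) := by
  apply strictMono_int_of_lt_succ
  intro n
  show (P ^ n) a < (P ^ (n + 1)) a
  rw [zpow_add_one]
  exact (P ^ n).lt_iff_lt.2 (hP a)

theorem unbdd_above (hlub : ∀ S : Set α, S.Nonempty → BddAbove S → ∃ l, IsLUB S l) (a x : α) :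
    ∃ n : ℤ, x < (P ^ n) a := by
  by_contra hcon
  push Not at hcon
  obtain ⟨l, hl⟩ := hlub (Set.range (fun n : ℤ => (P ^ n) a)) ⟨_, ⟨0, rfl⟩⟩
    ⟨x, by rintro _ ⟨n, rfl⟩; exact hcon n⟩
  have h1 : P.symm l ∈ upperBounds (Set.range (fun n : ℤ => (P ^ n) a)) := by
    rintro _ ⟨n, rfl⟩
    rw [P.le_symm_apply]
    have h2 : P ((P ^ n) a) = (P ^ (n + 1)) a := by
      rw [zpow_add_one, ← (Commute.zpow_self P n).eq.symm]
      rfl
    show P ((P ^ n) a) ≤ l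
    rw [h2]
    exact hl.1 ⟨n + 1, rfl⟩
  have h3 := hl.2 h1
  rw [P.le_symm_apply] at h3
  exact absurd h3 (not_le.2 (hP l))

theorem unbdd_below (hglb : ∀ S : Set α, S.Nonempty → BddBelow S → ∃ l, IsGLB S l) (a x : α) :
    ∃ n : ℤ, (P ^ n) a < x := by
  by_contra hcon
  push Not at hcon
  obtain ⟨l, hl⟩ := hglb (Set.range (fun n : ℤ => (P ^ n) a)) ⟨_, ⟨0, rfl⟩⟩
    ⟨x, by rintro _ ⟨n, rfl⟩; exact hcon n⟩
  have h1 : P l ∈ lowerBounds (Set.range (fun n : ℤ => (P ^ n) a)) := by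
    rintro _ ⟨n, rfl⟩
    have h2 : (P ^ n) a = P ((P ^ (n - 1)) a) := by
      have : P ^ n = P * P ^ (n - 1) := by
        rw [← zpow_one_add]; congr 1; ring
      rw [this]; rfl
    show P l ≤ (P ^ n) a
    rw [h2, P.le_iff_le]
    exact hl.1 ⟨n - 1, rfl⟩
  exact absurd (hl.2 h1) (not_le.2 (hP l))

theorem exists_floor (hlub : ∀ S : Set α, S.Nonempty → BddAbove S → ∃ l, IsLUB S l)
    (hglb : ∀ S : Set α, S.Nonempty → BddBelow S → ∃ l, IsGLB S l) (a x : α) :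
    ∃ n : ℤ, (P ^ n) a ≤ x ∧ x < (P ^ (n + 1)) a := by
  obtain ⟨N, hN⟩ := unbdd_above P hP hlub a x
  obtain ⟨M, hM⟩ := unbdd_below P hP hglb a x
  obtain ⟨n, hn, hmax⟩ := Int.exists_greatest_of_bdd (P := fun n => (P ^ n) a ≤ x)
    ⟨N, fun z hz => by
      by_contra hcon
      have h1 := (zpow_strictMono P hP a) (not_le.1 hcon)
      exact absurd (h1.trans_le hz) (not_lt.2 hN.le)⟩ ⟨M, hM.le⟩
  refine ⟨n, hn, ?_⟩
  by_contra hcon
  have := hmax (n + 1) (not_lt.1 hcon)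
  omega

omit hP in
/-- conjugacy of two fixed point free automorphisms -/
theorem exists_conj {β : Type*} [LinearOrder β] (Q : β ≃o β) (a : α) (b : β)
    (hP : ∀ x, x < P x) (hQ : ∀ x, x < Q x)
    (hPf : ∀ x, ∃ n : ℤ, (P ^ n) a ≤ x ∧ x < (P ^ (n + 1)) a)
    (hQf : ∀ x, ∃ n : ℤ, (Q ^ n) b ≤ x ∧ x < (Q ^ (n + 1)) b)
    (A : α → β) (hA1 : ∀ x y, a ≤ x → y < P a → x < y → A x < A y)
    (hA2 : ∀ x, a ≤ x → x < P a → b ≤ A x ∧ A x < Q b)
    (hA3 : ∀ y, b ≤ y → y < Q b → ∃ x, a ≤ x ∧ x < P a ∧ A x = y) :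
    ∃ C : α ≃o β, ∀ x, C (P x) = Q (C x) := by
  choose n hn1 hn2 using hPf
  have huniq : ∀ x (k : ℤ), (P ^ k) a ≤ x → x < (P ^ (k + 1)) a → k = n x := by
    intro x k h1 h2
    have h3 := (zpow_strictMono P hP a).lt_iff_lt.1 (h1.trans_lt (hn2 x))
    have h4 := (zpow_strictMono P hP a).lt_iff_lt.1 ((hn1 x).trans_lt h2)
    omega
  have hz : ∀ (k : ℤ) x, (P ^ k) ((P ^ (-k)) x) = x := by
    intro k x
    have : (P ^ k * P ^ (-k)) x = x := by rw [← zpow_add]; simp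
    exact this
  have hz' : ∀ (k : ℤ) x, (P ^ (-k)) ((P ^ k) x) = x := by
    intro k x
    have : (P ^ (-k) * P ^ k) x = x := by rw [← zpow_add]; simp
    exact this
  have hzQ : ∀ (k : ℤ) x, (Q ^ k) ((Q ^ (-k)) x) = x := by
    intro k x
    have : (Q ^ k * Q ^ (-k)) x = x := by rw [← zpow_add]; simp
    exact this
  have hdom : ∀ x, a ≤ (P ^ (-(n x))) x ∧ (P ^ (-(n x))) x < P a := by
    intro x
    constructor
    · rw [← (P ^ (n x)).le_iff_le, hz]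
      exact hn1 x
    · rw [← (P ^ (n x)).lt_iff_lt, hz]
      have := hn2 x
      rw [zpow_add_one] at this
      exact this
  obtain ⟨C, hC⟩ : ∃ C : α → β, ∀ x, C x = (Q ^ (n x)) (A ((P ^ (-(n x))) x)) := ⟨_, fun x => rfl⟩
  have hCb : ∀ x, (Q ^ (n x)) b ≤ C x ∧ C x < (Q ^ (n x + 1)) b := by
    intro x
    have h := hA2 _ (hdom x).1 (hdom x).2
    rw [hC]
    refine ⟨(Q ^ (n x)).le_iff_le.2 h.1, ?_⟩
    rw [zpow_add_one]
    exact (Q ^ (n x)).lt_iff_lt.2 h.2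
  have hmono : StrictMono C := by
    intro x y hxy
    have h1 : n x ≤ n y := by
      have := (zpow_strictMono P hP a).lt_iff_lt.1 (((hn1 x).trans_lt hxy).trans (hn2 y))
      omega
    rcases h1.lt_or_eq with h1 | h1
    · calc C x < (Q ^ (n x + 1)) b := (hCb x).2
        _ ≤ (Q ^ (n y)) b := (zpow_strictMono Q hQ b).monotone (by omega)
        _ ≤ C y := (hCb y).1
    · rw [hC x, hC y, h1]
      apply (Q ^ (n y)).lt_iff_lt.2
      have h2 := hdom x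
      rw [h1] at h2
      exact hA1 _ _ h2.1 (hdom y).2 ((P ^ (-(n y))).lt_iff_lt.2 hxy)
  have hsurj : Function.Surjective C := by
    intro y
    obtain ⟨k, hk1, hk2⟩ := hQf y
    obtain ⟨x, hx1, hx2, hx3⟩ := hA3 ((Q ^ (-k)) y)
      (by rw [← (Q ^ k).le_iff_le, hzQ]; exact hk1)
      (by
        rw [← (Q ^ k).lt_iff_lt, hzQ]
        rw [zpow_add_one] at hk2
        exact hk2)
    refine ⟨(P ^ k) x, ?_⟩
    have hk : k = n ((P ^ k) x) := by
      apply huniq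
      · exact (P ^ k).le_iff_le.2 hx1
      · rw [zpow_add_one]
        exact (P ^ k).lt_iff_lt.2 hx2
    rw [hC, ← hk, hz', hx3, hzQ]
  refine ⟨hmono.orderIsoOfSurjective C hsurj, fun x => ?_⟩
  show C (P x) = Q (C x)
  have hk : n x + 1 = n (P x) := by
    apply huniq
    · have : (P ^ (n x + 1)) a = P ((P ^ (n x)) a) := by
        rw [add_comm, zpow_one_add]; rfl
      rw [this]
      exact P.le_iff_le.2 (hn1 x)
    · have : (P ^ (n x + 1 + 1)) a = P ((P ^ (n x + 1)) a) := by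
        rw [add_comm, zpow_one_add]; rfl
      rw [this]
      exact P.lt_iff_lt.2 (hn2 x)
  rw [hC, hC, ← hk]
  have h1 : (P ^ (-(n x + 1))) (P x) = (P ^ (-(n x))) x := by
    have : P ^ (-(n x + 1)) * P = P ^ (-(n x)) := by
      rw [← zpow_add_one]; congr 1; ring
    rw [← this]; rfl
  rw [h1, add_comm, zpow_one_add]
  rfl

end abs

section ioo

variable {a b a' b' : ℝ}

theorem ioo_lub (S : Set (Set.Ioo a b)) (h1 : S.Nonempty) (h2 : BddAbove S) : ∃ l, IsLUB S l := by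
  obtain ⟨s, hs⟩ := h1
  obtain ⟨u, hu⟩ := h2
  have hne : ((Subtype.val '' S) : Set ℝ).Nonempty := ⟨s, ⟨s, hs, rfl⟩⟩
  have hbd : BddAbove ((Subtype.val '' S) : Set ℝ) := by
    refine ⟨u, ?_⟩
    rintro _ ⟨t, ht, rfl⟩
    exact hu ht
  obtain ⟨l, hl⟩ : ∃ l : ℝ, IsLUB (Subtype.val '' S) l := ⟨_, isLUB_csSup hne hbd⟩
  have hl1 : a < l := s.2.1.trans_le (hl.1 ⟨s, hs, rfl⟩)
  have hl2 : l < b := (hl.2 (by rintro _ ⟨t, ht, rfl⟩; exact hu ht)).trans_lt u.2.2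
  refine ⟨⟨l, hl1, hl2⟩, ?_, ?_⟩
  · intro t ht
    exact hl.1 ⟨t, ht, rfl⟩
  · intro v hv
    exact hl.2 (by rintro _ ⟨t, ht, rfl⟩; exact hv ht)

theorem ioo_glb (S : Set (Set.Ioo a b)) (h1 : S.Nonempty) (h2 : BddBelow S) : ∃ l, IsGLB S l := by
  obtain ⟨s, hs⟩ := h1
  obtain ⟨u, hu⟩ := h2
  have hne : ((Subtype.val '' S) : Set ℝ).Nonempty := ⟨s, ⟨s, hs, rfl⟩⟩
  have hbd : BddBelow ((Subtype.val '' S) : Set ℝ) := by
    refine ⟨u, ?_⟩
    rintro _ ⟨t, ht, rfl⟩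
    exact hu ht
  obtain ⟨l, hl⟩ : ∃ l : ℝ, IsGLB (Subtype.val '' S) l := ⟨_, isGLB_csInf hne hbd⟩
  have hl1 : l < b := (hl.1 ⟨s, hs, rfl⟩).trans_lt s.2.2
  have hl2 : a < l := u.2.1.trans_le (hl.2 (by rintro _ ⟨t, ht, rfl⟩; exact hu ht))
  refine ⟨⟨l, hl2, hl1⟩, ?_, ?_⟩
  · intro t ht
    exact hl.1 ⟨t, ht, rfl⟩
  · intro v hv
    exact hl.2 (by rintro _ ⟨t, ht, rfl⟩; exact hv ht)

/-- conjugacy of fixed point free increasing homeomorphisms of open intervals -/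
theorem exists_conj_ioo (hab : a < b) (hab' : a' < b') (P : Set.Ioo a b ≃o Set.Ioo a b)
    (Q : Set.Ioo a' b' ≃o Set.Ioo a' b') (hP : ∀ x, x < P x) (hQ : ∀ x, x < Q x) :
    ∃ C : Set.Ioo a b ≃o Set.Ioo a' b', ∀ x, C (P x) = Q (C x) := by
  obtain ⟨p, hp⟩ : ∃ p : Set.Ioo a b, True := by
    obtain ⟨p, hp⟩ := exists_between hab
    exact ⟨⟨p, hp⟩, trivial⟩
  obtain ⟨q, hq⟩ : ∃ q : Set.Ioo a' b', True := by
    obtain ⟨q, hq⟩ := exists_between hab'
    exact ⟨⟨q, hq⟩, trivial⟩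
  have hpp : (p : ℝ) < P p := hP p
  have hqq : (q : ℝ) < Q q := hQ q
  -- the affine map
  obtain ⟨f, hf⟩ : ∃ f : ℝ → ℝ, ∀ x, f x = q + (x - p) * ((Q q - q) / (P p - p)) :=
    ⟨_, fun x => rfl⟩
  have hs : 0 < ((Q q : ℝ) - q) / (P p - p) := div_pos (by linarith) (by linarith)
  have hfm : StrictMono f := by
    intro x y hxy
    rw [hf, hf]
    have := mul_lt_mul_of_pos_right (sub_lt_sub_right hxy (p : ℝ)) hs
    linarith
  have hfp : f p = q := by rw [hf]; ring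
  have hfP : f (P p) = Q q := by
    rw [hf]
    have : (P p : ℝ) - p ≠ 0 := by linarith
    field_simp
    ring
  have hmem : ∀ x : ℝ, (p : ℝ) ≤ x → x < P p → f x ∈ Set.Ioo a' b' := by
    intro x h1 h2
    constructor
    · have := hfm.monotone h1
      rw [hfp] at this
      exact q.2.1.trans_le this
    · have := hfm h2
      rw [hfP] at this
      exact this.trans (Q q).2.2
  classical
  refine exists_conj P Q p q hP hQ (exists_floor P hP ioo_lub ioo_glb p)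
    (exists_floor Q hQ ioo_lub ioo_glb q)
    (fun x => if h : p ≤ x ∧ x < P p then ⟨f x, hmem x h.1 h.2⟩ else q) ?_ ?_ ?_
  · intro x y h1 h2 h3
    have hx : p ≤ x ∧ x < P p := ⟨h1, h3.trans h2⟩
    have hy : p ≤ y ∧ y < P p := ⟨h1.trans h3.le, h2⟩
    simp only [hx, hy, and_self, dif_pos]
    exact hfm h3
  · intro x h1 h2
    simp only [h1, h2, and_self, dif_pos]
    constructor
    · have := hfm.monotone (show (p : ℝ) ≤ x from h1)
      rw [hfp] at this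
      exact this
    · have := hfm (show (x : ℝ) < P p from h2)
      rw [hfP] at this
      exact this
  · intro y h1 h2
    obtain ⟨x, hx⟩ : ∃ x : ℝ, f x = y := by
      refine ⟨p + (y - q) / ((Q q - q) / (P p - p)), ?_⟩
      rw [hf, add_sub_cancel_left, div_mul_cancel₀ _ hs.ne']
      ring
    have hx1 : (p : ℝ) ≤ x := by
      rw [← hfm.le_iff_le, hfp, hx]; exact h1
    have hx2 : x < P p := by
      rw [← hfm.lt_iff_lt, hfP, hx]; exact h2
    refine ⟨⟨x, p.2.1.trans_le hx1, hx2.trans (P p).2.2⟩, hx1, hx2, ?_⟩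
    have h3 : p ≤ (⟨x, p.2.1.trans_le hx1, hx2.trans (P p).2.2⟩ : Set.Ioo a b) := hx1
    have h4 : (⟨x, p.2.1.trans_le hx1, hx2.trans (P p).2.2⟩ : Set.Ioo a b) < P p := hx2
    simp only [h3, h4, and_self, dif_pos]
    exact Subtype.ext hx

end ioo

end Pool.Agent.helper29.KS
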