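import Pool.Agent.helper29.KS.KSDefs

/-!
# Smooth families of diffeomorphisms are continuous in the `C^r` topology
-/

open Set Filter Topology Function
open scoped Manifold ContDiff

noncomputable section

namespace Pool.Agent.helper29.KS

section param

variable {B E F : Type*} [NormedAddCommGroup B] [NormedSpace ℝ B] [NormedAddCommGroup E]
  [NormedSpace ℝ E] [NormedAddCommGroup F] [NormedSpace ℝ F]

/-- partial iterated derivatives of a smooth function are smooth -/
theorem contDiffAt_iteratedFDeriv_param {G : B × E → F} {p₀ : B × E} (hG : ContDiffAt ℝ ∞ G p₀)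
    (k : ℕ) :
    ContDiffAt ℝ ∞ (fun p : B × E => iteratedFDeriv ℝ k (fun y => G (p.1, y)) p.2) p₀ := by
  induction k with
  | zero =>
    have h1 : (fun p : B × E => iteratedFDeriv ℝ 0 (fun y => G (p.1, y)) p.2) =
        (continuousMultilinearCurryFin0 ℝ E F).symm ∘ G := by
      funext p
      rw [iteratedFDeriv_zero_eq_comp]
      rfl
    rw [h1]
    exact (LinearIsometryEquiv.contDiff _).contDiffAt.comp p₀ hG
  | succ k ih =>
    have h1 : (fun p : B × E => iteratedFDeriv ℝ (k + 1) (fun y => G (p.1, y)) p.2) =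
        (continuousMultilinearCurryLeftEquiv ℝ (fun _ : Fin (k + 1) => E) F).symm ∘
          (fun p : B × E => fderiv ℝ (iteratedFDeriv ℝ k (fun y => G (p.1, y))) p.2) := by
      funext p
      rw [iteratedFDeriv_succ_eq_comp_left]
      rfl
    rw [h1]
    refine ContDiffAt.comp p₀
      (g := ⇑(continuousMultilinearCurryLeftEquiv ℝ (fun _ : Fin (k + 1) => E) F).symm)
      (LinearIsometryEquiv.contDiff _).contDiffAt ?_
    refine ContDiffAt.fderiv (f := fun (p : B × E) (y : E) =>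
      iteratedFDeriv ℝ k (fun y => G (p.1, y)) y) (g := fun p : B × E => p.2) (n := ∞) ?_
      contDiffAt_snd le_rfl
    have h2 : ContDiffAt ℝ ∞ (fun q : (B × E) × E => (q.1.1, q.2)) (p₀, p₀.2) :=
      (contDiff_fst.fst.prodMk contDiff_snd).contDiffAt
    exact ContDiffAt.comp (p₀, p₀.2)
      (g := fun p : B × E => iteratedFDeriv ℝ k (fun y => G (p.1, y)) p.2) ih h2

end param

section manifold

variable {B : Type*} [NormedAddCommGroup B] [NormedSpace ℝ B]
  {E : Type*} [NormedAddCommGroup E] [NormedSpace ℝ E] {H : Type*} [TopologicalSpace H]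
  (I : ModelWithCorners ℝ E H) [I.Boundaryless] {M : Type*} [TopologicalSpace M] [ChartedSpace H M]
  [IsManifold I ∞ M]

/-- the local expression of a smooth family is smooth -/
theorem contDiffAt_inCharts {Φ : B × M → M} (hΦ : ContMDiff (𝓘(ℝ, B).prod I) I ∞ Φ)
    {e e' : OpenPartialHomeomorph M H} (he : e ∈ IsManifold.maximalAtlas I ∞ M)
    (he' : e' ∈ IsManifold.maximalAtlas I ∞ M) {b₀ : B} {x₀ : M} (hx₀ : x₀ ∈ e.source)
    (hx₀' : Φ (b₀, x₀) ∈ e'.source) :
    ContDiffAt ℝ ∞ (fun p : B × E => inCharts I e e' (fun x => Φ (p.1, x)) p.2)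
      (b₀, e.extend I x₀) := by
  have h1 : ContMDiffAt 𝓘(ℝ, E) I ∞ (e.extend I).symm (e.extend I x₀) := by
    have h2 := contMDiffOn_extend_symm (I := I) he
    rw [← OpenPartialHomeomorph.extend_target'] at h2
    apply h2.contMDiffAt
    apply (e.isOpen_extend_target (I := I)).mem_nhds
    rw [OpenPartialHomeomorph.extend_target']
    exact ⟨e x₀, e.map_source hx₀, rfl⟩
  have hinv : (e.extend I).symm (e.extend I x₀) = x₀ := e.extend_left_inv hx₀
  have h3 : ContMDiffAt (𝓘(ℝ, B).prod 𝓘(ℝ, E)) (𝓘(ℝ, B).prod I) ∞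
      (fun p : B × E => (p.1, (e.extend I).symm p.2)) (b₀, e.extend I x₀) := by
    apply ContMDiffAt.prodMk
    · exact contMDiffAt_fst
    · exact ContMDiffAt.comp (b₀, e.extend I x₀) h1 contMDiffAt_snd
  have h4 : ContMDiffAt (𝓘(ℝ, B).prod 𝓘(ℝ, E)) I ∞
      (fun p : B × E => Φ (p.1, (e.extend I).symm p.2)) (b₀, e.extend I x₀) :=
    ContMDiffAt.comp (b₀, e.extend I x₀) hΦ.contMDiffAt h3
  have h5 : ContMDiffAt I 𝓘(ℝ, E) ∞ (e'.extend I) (Φ (b₀, (e.extend I).symm (e.extend I x₀))) := by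
    rw [hinv]
    exact e'.contMDiffAt_extend he' hx₀'
  have h6 : ContMDiffAt (𝓘(ℝ, B).prod 𝓘(ℝ, E)) 𝓘(ℝ, E) ∞
      (fun p : B × E => e'.extend I (Φ (p.1, (e.extend I).symm p.2))) (b₀, e.extend I x₀) :=
    ContMDiffAt.comp (b₀, e.extend I x₀) h5 h4
  rw [← modelWithCornersSelf_prod, chartedSpaceSelf_prod] at h6
  exact contMDiffAt_iff_contDiffAt.1 h6

omit [IsManifold I ∞ M] in
theorem contDiffAt_inCharts' {n : WithTop ℕ∞} (hn : n ≤ ∞) {f : M → M} (hf : ContMDiff I I n f)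
    {e e' : OpenPartialHomeomorph M H} (he : e ∈ IsManifold.maximalAtlas I ∞ M)
    (he' : e' ∈ IsManifold.maximalAtlas I ∞ M) {x₀ : M} (hx₀ : x₀ ∈ e.source)
    (hx₀' : f x₀ ∈ e'.source) :
    ContDiffAt ℝ n (inCharts I e e' f) (e.extend I x₀) := by
  have h1 : ContMDiffAt 𝓘(ℝ, E) I ∞ (e.extend I).symm (e.extend I x₀) := by
    have h2 := contMDiffOn_extend_symm (I := I) he
    rw [← OpenPartialHomeomorph.extend_target'] at h2
    apply h2.contMDiffAt
    apply (e.isOpen_extend_target (I := I)).mem_nhds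
    rw [OpenPartialHomeomorph.extend_target']
    exact ⟨e x₀, e.map_source hx₀, rfl⟩
  have hinv : (e.extend I).symm (e.extend I x₀) = x₀ := e.extend_left_inv hx₀
  have h4 : ContMDiffAt 𝓘(ℝ, E) I n (fun p : E => f ((e.extend I).symm p)) (e.extend I x₀) :=
    ContMDiffAt.comp (e.extend I x₀) hf.contMDiffAt (h1.of_le hn)
  have h5 : ContMDiffAt I 𝓘(ℝ, E) ∞ (e'.extend I) (f ((e.extend I).symm (e.extend I x₀))) := by
    rw [hinv]
    exact e'.contMDiffAt_extend he' hx₀'
  have h6 : ContMDiffAt 𝓘(ℝ, E) 𝓘(ℝ, E) n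
      (fun p : E => e'.extend I (f ((e.extend I).symm p))) (e.extend I x₀) :=
    ContMDiffAt.comp (e.extend I x₀) (h5.of_le hn) h4
  exact h6.contDiffAt

theorem eventually_mem_basic {Φ : B × M → M} (hΦ : ContMDiff (𝓘(ℝ, B).prod I) I ∞ Φ)
    {e e' : OpenPartialHomeomorph M H} (he : e ∈ IsManifold.maximalAtlas I ∞ M)
    (he' : e' ∈ IsManifold.maximalAtlas I ∞ M) {K : Set M} (hK : IsCompact K) (hKe : K ⊆ e.source)
    {r : ℕ∞} {f : M → M} (hf : ContMDiff I I (r : WithTop ℕ∞) f) (hfK : MapsTo f K e'.source)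
    {m : ℕ} (hm : (m : ℕ∞) ≤ r) {ε : ℝ} {b₀ : B}
    (h₀ : ∀ x ∈ K, Φ (b₀, x) ∈ e'.source ∧ ∀ k ≤ m,
      ‖iteratedFDeriv ℝ k (inCharts I e e' (fun x => Φ (b₀, x))) (e.extend I x) -
        iteratedFDeriv ℝ k (inCharts I e e' f) (e.extend I x)‖ < ε) :
    ∀ᶠ b in 𝓝 b₀, ∀ x ∈ K, Φ (b, x) ∈ e'.source ∧ ∀ k ≤ m,
      ‖iteratedFDeriv ℝ k (inCharts I e e' (fun x => Φ (b, x))) (e.extend I x) -
        iteratedFDeriv ℝ k (inCharts I e e' f) (e.extend I x)‖ < ε := by
  apply hK.eventually_forall_of_forall_eventually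
  intro x₀ hx₀
  have hxe := hKe hx₀
  have h1 : ∀ᶠ z : B × M in 𝓝 (b₀, x₀), Φ (z.1, z.2) ∈ e'.source :=
    hΦ.continuous.continuousAt.eventually (e'.open_source.mem_nhds (h₀ x₀ hx₀).1)
  have h2 : ∀ k ≤ m, ∀ᶠ z : B × M in 𝓝 (b₀, x₀),
      ‖iteratedFDeriv ℝ k (inCharts I e e' (fun x => Φ (z.1, x))) (e.extend I z.2) -
        iteratedFDeriv ℝ k (inCharts I e e' f) (e.extend I z.2)‖ < ε := by
    intro k hk
    have hc1 : ContinuousAt (fun z : B × M => ((z.1, e.extend I z.2) : B × E)) (b₀, x₀) :=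
      continuousAt_fst.prodMk (ContinuousAt.comp' (f := Prod.snd) (x := (b₀, x₀))
        (e.continuousAt_extend hxe) continuousAt_snd)
    have hc2 : ContinuousAt (fun p : B × E =>
        iteratedFDeriv ℝ k (inCharts I e e' (fun x => Φ (p.1, x))) p.2) (b₀, e.extend I x₀) :=
      (contDiffAt_iteratedFDeriv_param
        (contDiffAt_inCharts I hΦ he he' hxe (h₀ x₀ hx₀).1) k).continuousAt
    have hc3 : ContinuousAt (fun z : B × M =>
        iteratedFDeriv ℝ k (inCharts I e e' (fun x => Φ (z.1, x))) (e.extend I z.2)) (b₀, x₀) :=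
      ContinuousAt.comp (g := fun p : B × E =>
        iteratedFDeriv ℝ k (inCharts I e e' (fun x => Φ (p.1, x))) p.2)
        (f := fun z : B × M => ((z.1, e.extend I z.2) : B × E)) (x := (b₀, x₀)) hc2 hc1
    have hr : (r : WithTop ℕ∞) ≤ ∞ := by
      exact_mod_cast le_top
    have hkr : (0 : WithTop ℕ∞) + (k : WithTop ℕ∞) ≤ (r : WithTop ℕ∞) := by
      rw [zero_add]
      have : (k : ℕ∞) ≤ r := le_trans (by exact_mod_cast hk) hm
      exact_mod_cast this
    have hc4 : ContinuousAt (iteratedFDeriv ℝ k (inCharts I e e' f)) (e.extend I x₀) :=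
      ((contDiffAt_inCharts' I hr hf he he' hxe (hfK hx₀)).iteratedFDeriv_right hkr).continuousAt
    have hc5 : ContinuousAt (fun z : B × M => iteratedFDeriv ℝ k (inCharts I e e' f)
        (e.extend I z.2)) (b₀, x₀) :=
      ContinuousAt.comp (g := iteratedFDeriv ℝ k (inCharts I e e' f))
        (f := fun z : B × M => e.extend I z.2) (x := (b₀, x₀)) hc4
        (ContinuousAt.comp' (f := Prod.snd) (x := (b₀, x₀))
          (e.continuousAt_extend hxe) continuousAt_snd)
    exact (hc3.sub hc5).norm.eventually (gt_mem_nhds ((h₀ x₀ hx₀).2 k hk))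
  have h3 : ∀ᶠ z : B × M in 𝓝 (b₀, x₀), ∀ k ∈ Finset.range (m + 1),
      ‖iteratedFDeriv ℝ k (inCharts I e e' (fun x => Φ (z.1, x))) (e.extend I z.2) -
        iteratedFDeriv ℝ k (inCharts I e e' f) (e.extend I z.2)‖ < ε := by
    rw [Filter.eventually_all_finset]
    intro k hk
    exact h2 k (by rw [Finset.mem_range] at hk; omega)
  filter_upwards [h1, h3] with z hz1 hz3
  exact ⟨hz1, fun k hk => hz3 k (Finset.mem_range.2 (by omega))⟩

/-- smooth families are continuous in the `C^r` topology -/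
theorem continuous_family {X : Type*} [TopologicalSpace X] {r : ℕ∞} {Φ : B × M → M}
    (hΦ : ContMDiff (𝓘(ℝ, B).prod I) I ∞ Φ)
    (Θ : X → Diffeomorph I I M M (r : WithTop ℕ∞)) (β : X → B) (hβ : Continuous β)
    (hΘ : ∀ t x, Θ t x = Φ (β t, x)) :
    @Continuous X (Diffeomorph I I M M (r : WithTop ℕ∞)) _ (crTopology I M r) Θ := by
  rw [continuous_generateFrom_iff]
  rintro S ⟨e, he, e', he', K, hK, hKe, f, hfK, m, hm, ε, hε, rfl⟩
  rw [isOpen_iff_eventually]
  intro t₀ ht₀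
  have hfun : ∀ t, (⇑(Θ t) : M → M) = fun x => Φ (β t, x) := fun t => funext (hΘ t)
  have h1 := eventually_mem_basic I hΦ he he' hK hKe (r := r) (f := f) (m := m) (ε := ε)
    (b₀ := β t₀) f.contMDiff_toFun hfK hm (by
      intro x hx
      have h2 := ht₀ x hx
      rw [hfun t₀] at h2
      exact h2)
  have h2 := hβ.continuousAt.eventually h1
  filter_upwards [h2] with t ht
  intro x hx
  have h3 := ht x hx
  rw [hfun t]
  exact h3

end manifold

end Pool.Agent.helper29.KS
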