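import Pool.Agent.helper29.KS.Global

/-!
# Topological dynamics of skew maps of the torus
-/

open Set Filter Topology Function

noncomputable section

namespace Pool.Agent.helper29.KS

section general

variable {X Y : Type*} [TopologicalSpace X] [TopologicalSpace Y]

/-- closure of the strict forward orbit -/
def orbCl (f : X → X) (p : X) : Set X := closure (range fun n : ℕ => f^[n + 1] p)

/-- orbit closures of recurrent points -/
def recCl (f : X → X) : Set (Set X) := {S | ∃ p, p ∈ orbCl f p ∧ S = orbCl f p}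

theorem iterate_conj {f : X → X} {g : Y → Y} (h : X ≃ₜ Y) (hfg : ∀ x, h (f x) = g (h x)) (n : ℕ)
    (x : X) : h (f^[n] x) = g^[n] (h x) := by
  induction n generalizing x with
  | zero => rfl
  | succ n ih => rw [iterate_succ_apply, iterate_succ_apply, ih, hfg]

theorem orbCl_conj {f : X → X} {g : Y → Y} (h : X ≃ₜ Y) (hfg : ∀ x, h (f x) = g (h x)) (x : X) :
    orbCl g (h x) = h '' orbCl f x := by
  rw [orbCl, orbCl, h.image_closure, ← range_comp]
  congr 1
  apply congrArg
  funext n
  exact (iterate_conj h hfg (n + 1) x).symm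

theorem recCl_conj {f : X → X} {g : Y → Y} (h : X ≃ₜ Y) (hfg : ∀ x, h (f x) = g (h x)) :
    recCl g = (fun S => h '' S) '' recCl f := by
  ext S
  constructor
  · rintro ⟨q, hq, rfl⟩
    refine ⟨orbCl f (h.symm q), ⟨h.symm q, ?_, rfl⟩, ?_⟩
    · have h1 := orbCl_conj h hfg (h.symm q)
      rw [h.apply_symm_apply] at h1
      rw [h1] at hq
      obtain ⟨x, hx, hxq⟩ := hq
      rw [← hxq, h.symm_apply_apply]
      rw [← hxq, h.symm_apply_apply] at hx
      exact hx
    · have h1 := orbCl_conj h hfg (h.symm q)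
      rw [h.apply_symm_apply] at h1
      exact h1.symm
  · rintro ⟨_, ⟨p, hp, rfl⟩, rfl⟩
    refine ⟨h p, ?_, ?_⟩
    · rw [orbCl_conj h hfg]
      exact mem_image_of_mem h hp
    · rw [orbCl_conj h hfg]

theorem recCl_countable_iff {f : X → X} {g : Y → Y} (h : X ≃ₜ Y) (hfg : ∀ x, h (f x) = g (h x)) :
    (recCl f).Countable ↔ (recCl g).Countable := by
  rw [recCl_conj h hfg]
  constructor
  · intro h1; exact h1.image _
  · intro h1
    refine countable_of_injective_of_countable_image ?_ h1
    intro S _ T _ hST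
    exact h.injective.image_injective hST

end general

section skew

/-- the skew map -/
def skew (g : Circle → Circle) (ω : Circle) : Circle × Circle → Circle × Circle :=
  fun p => (g p.1, p.2 * ω)

theorem skew_iterate (g : Circle → Circle) (ω : Circle) (n : ℕ) (p : Circle × Circle) :
    (skew g ω)^[n] p = (g^[n] p.1, p.2 * ω ^ n) := by
  induction n generalizing p with
  | zero => simp
  | succ n ih =>
    rw [iterate_succ_apply, ih, skew, iterate_succ_apply, mul_assoc, pow_succ']

/-- the rotation number -/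
def om : Circle := Circle.exp 1

theorem irrational_inv_two_pi : Irrational (1 / (2 * Real.pi)) := by
  have h := irrational_pi
  have h1 : Irrational (2 * Real.pi) := by
    have := h.ratCast_mul (q := 2) (by norm_num)
    simpa using this
  rw [one_div]
  exact h1.inv

theorem denseRange_om : DenseRange (fun n : ℕ => om ^ n) := by
  rw [← denseRange_zpow_iff_pow]
  have h1 : DenseRange (fun n : ℤ => n • ((1 : ℝ) : AddCircle (2 * Real.pi))) :=
    AddCircle.denseRange_zsmul_coe_iff.2 irrational_inv_two_pi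
  have h2 : DenseRange (AddCircle.homeomorphCircle' : AddCircle (2 * Real.pi) → Circle) :=
    AddCircle.homeomorphCircle'.surjective.denseRange
  have h3 := h2.comp h1 AddCircle.homeomorphCircle'.continuous
  refine h3.mono ?_
  rintro _ ⟨n, rfl⟩
  refine ⟨n, ?_⟩
  have e1 : n • ((1 : ℝ) : AddCircle (2 * Real.pi)) = ((n • (1 : ℝ) : ℝ) : AddCircle (2 * Real.pi)) := by
    rw [AddCircle.coe_zsmul]
  show om ^ n = AddCircle.homeomorphCircle' (n • ((1 : ℝ) : AddCircle (2 * Real.pi)))
  rw [e1, AddCircle.homeomorphCircle'_apply_mk, om]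
  exact (map_zsmul Circle.expHom n (1 : ℝ)).symm

theorem om_pow_ne {n : ℕ} (hn : n ≠ 0) : om ^ n ≠ 1 := by
  intro h
  have h1 : om ^ n = Circle.exp (n • (1 : ℝ)) := (map_nsmul Circle.expHom n (1 : ℝ)).symm
  rw [h1, ← Circle.exp_zero, Circle.exp_eq_exp, nsmul_eq_mul, mul_one] at h
  obtain ⟨m, hm⟩ := h
  rw [zero_add] at hm
  have hn' : (n : ℝ) ≠ 0 := by exact_mod_cast hn
  have hm0 : (m : ℝ) ≠ 0 := by
    rintro h0
    rw [h0, zero_mul] at hm
    exact hn' hm
  apply irrational_inv_two_pi
  refine ⟨m / n, ?_⟩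
  push_cast
  have hpi := Real.pi_pos
  rw [div_eq_div_iff hn' (by positivity), one_mul]
  exact hm.symm

theorem closure_powers (w : Circle) : closure (range fun n : ℕ => w * om ^ (n + 1)) = univ := by
  have h1 : DenseRange (fun n : ℕ => w * om ^ (n + 1)) := by
    have h2 : Function.Surjective (fun z : Circle => w * om * z) := by
      intro z
      exact ⟨(w * om)⁻¹ * z, mul_inv_cancel_left _ _⟩
    have h3 := h2.denseRange.comp denseRange_om (by fun_prop)
    refine h3.mono ?_
    rintro _ ⟨n, rfl⟩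
    refine ⟨n, ?_⟩
    show w * om ^ (n + 1) = w * om * om ^ n
    rw [pow_succ', mul_assoc]
  exact h1.closure_range

theorem no_periodic (g : Circle → Circle) {n : ℕ} (hn : n ≠ 0) (p : Circle × Circle) :
    (skew g om)^[n] p ≠ p := by
  intro h
  rw [skew_iterate] at h
  have h1 : p.2 * om ^ n = p.2 := congrArg Prod.snd h
  exact om_pow_ne hn (mul_left_cancel (h1.trans (mul_one _).symm))

variable {g : Circle → Circle}

theorem orbCl_fixed {z w : Circle} (hz : g z = z) : orbCl (skew g om) (z, w) = {z} ×ˢ univ := by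
  have h1 : (range fun n : ℕ => (skew g om)^[n + 1] (z, w)) =
      {z} ×ˢ (range fun n : ℕ => w * om ^ (n + 1)) := by
    ext ⟨a, b⟩
    constructor
    · rintro ⟨n, hn⟩
      simp only [skew_iterate, iterate_fixed hz] at hn
      rw [Prod.mk.injEq] at hn
      exact ⟨hn.1.symm, ⟨n, hn.2⟩⟩
    · rintro ⟨ha, ⟨n, hn⟩⟩
      refine ⟨n, ?_⟩
      simp only [skew_iterate, iterate_fixed hz]
      exact Prod.ext (mem_singleton_iff.1 ha).symm hn
  rw [orbCl, h1, closure_prod_eq, closure_powers, closure_singleton]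

/-- the recurrent orbit closures -/
theorem recCl_skew (hrec : ∀ z, z ∈ closure (range fun n : ℕ => g^[n + 1] z) → g z = z) :
    recCl (skew g om) = (fun z : Circle => {z} ×ˢ (univ : Set Circle)) '' fixedPoints g := by
  ext S
  constructor
  · rintro ⟨⟨z, w⟩, hp, rfl⟩
    have hz : g z = z := by
      apply hrec
      have h1 : z ∈ Prod.fst '' orbCl (skew g om) (z, w) := ⟨_, hp, rfl⟩
      have h2 := image_closure_subset_closure_image continuous_fst h1
      rw [← range_comp] at h2
      have h3 : (Prod.fst ∘ fun n : ℕ => (skew g om)^[n + 1] (z, w)) = fun n : ℕ => g^[n + 1] z := by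
        funext n
        rw [comp_apply, skew_iterate]
      rwa [h3] at h2
    exact ⟨z, hz, (orbCl_fixed hz).symm⟩
  · rintro ⟨z, hz, rfl⟩
    refine ⟨(z, 1), ?_, (orbCl_fixed hz).symm⟩
    rw [orbCl_fixed hz]
    exact ⟨rfl, trivial⟩

theorem recCl_skew_countable (hrec : ∀ z, z ∈ closure (range fun n : ℕ => g^[n + 1] z) → g z = z) :
    (recCl (skew g om)).Countable ↔ (fixedPoints g).Countable := by
  rw [recCl_skew hrec]
  constructor
  · intro h
    refine countable_of_injective_of_countable_image ?_ h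
    intro z _ z' _ hzz
    have : (z, (1 : Circle)) ∈ ({z} ×ˢ (univ : Set Circle)) := ⟨rfl, trivial⟩
    simp only at hzz
    rw [hzz] at this
    exact this.1
  · intro h; exact h.image _

end skew

section lift

variable {r : ℕ → ℕ → Prop} (hr : STO r) {G : ℝ → ℝ} (hG : Pattern r G) {g : Circle → Circle}
  (hg : ∀ x, g (Circle.exp x) = Circle.exp (G x))

theorem exp_inj_Ico {x y : ℝ} (hx : 0 ≤ x) (hy : 0 ≤ y) (hx' : x < 2 * Real.pi)
    (hy' : y < 2 * Real.pi) (h : Circle.exp x = Circle.exp y) : x = y := by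
  rw [Circle.exp_eq_exp] at h
  obtain ⟨m, hm⟩ := h
  have hpi := Real.pi_pos
  have h1 : (m : ℝ) < 1 := by
    by_contra hcon
    rw [not_lt] at hcon
    nlinarith
  have h2 : (-1 : ℝ) < m := by
    by_contra hcon
    rw [not_lt] at hcon
    nlinarith
  have h3 : m = 0 := by
    have h1' : m < 1 := by exact_mod_cast h1
    have h2' : -1 < m := by exact_mod_cast h2
    omega
  rw [h3] at hm
  simpa using hm

theorem exists_exp (z : Circle) : ∃ x, 0 ≤ x ∧ x < 2 * Real.pi ∧ Circle.exp x = z := by
  obtain ⟨y, hy⟩ := Circle.exp_surjective z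
  obtain ⟨x, hx, hxz⟩ := Circle.periodic_exp.exists_mem_Ico₀ Real.two_pi_pos y
  exact ⟨x, hx.1, hx.2, hxz.symm.trans hy⟩

include hr hG

theorem zero_exc : (0 : ℝ) ∈ Exc r ∧ (2 * Real.pi) ∈ Exc r := by
  constructor
  · have := tot_mem_exc hr (A := ∅) (fun _ _ _ h => h)
    rwa [tot_empty] at this
  · have := tot_mem_exc hr (A := univ) (fun _ _ _ _ => trivial)
    rwa [tot_univ] at this

theorem G_maps {x : ℝ} (hx : x ∈ Icc 0 (2 * Real.pi)) : G x ∈ Icc 0 (2 * Real.pi) := by
  have h := zero_exc hr hG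
  constructor
  · rw [← hG.fix _ h.1]; exact hG.mono.monotone hx.1
  · rw [← hG.fix _ h.2]; exact hG.mono.monotone hx.2

theorem le_G {x : ℝ} (hx : x ∈ Icc 0 (2 * Real.pi)) : x ≤ G x := by
  by_cases h : ∃ n, x ∈ Ioo (lft r n) (rgt r n)
  · obtain ⟨n, hn⟩ := h
    exact (hG.move n x hn).le
  · push Not at h
    rw [hG.fix x ⟨hx.1, hx.2, h⟩]

include hg

theorem g_iterate (n : ℕ) (x : ℝ) : g^[n] (Circle.exp x) = Circle.exp (G^[n] x) := by
  induction n generalizing x with
  | zero => rfl
  | succ n ih => rw [iterate_succ_apply, hg, ih, iterate_succ_apply]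

theorem fixed_iff {x : ℝ} (hx0 : 0 ≤ x) (hx1 : x < 2 * Real.pi) :
    g (Circle.exp x) = Circle.exp x ↔ x ∈ Exc r := by
  constructor
  · intro h
    refine ⟨hx0, hx1.le, fun n hn => ?_⟩
    rw [hg] at h
    have h1 := hG.move n x hn
    have h2 : G x < 2 * Real.pi := by
      rw [← hG.fix _ (zero_exc hr hG).2]; exact hG.mono hx1
    have h3 := exp_inj_Ico (hx0.trans h1.le) hx0 h2 hx1 h
    exact absurd h3 h1.ne'
  · intro h
    rw [hg, hG.fix x h]

theorem recurrent_fixed (z : Circle) (hz : z ∈ closure (range fun n : ℕ => g^[n + 1] z)) :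
    g z = z := by
  obtain ⟨x, hx0, hx1, rfl⟩ := exists_exp z
  by_contra hne
  have hx : x ∈ Icc 0 (2 * Real.pi) := ⟨hx0, hx1.le⟩
  have hlt : x < G x := by
    refine lt_of_le_of_ne (le_G hr hG hx) (fun h => hne ?_)
    rw [hg, ← h]
  have hsub : (range fun n : ℕ => g^[n + 1] (Circle.exp x)) ⊆ Circle.exp '' Icc (G x) (2 * Real.pi) := by
    rintro _ ⟨n, rfl⟩
    refine ⟨G^[n + 1] x, ?_, (g_iterate hr hG hg _ _).symm⟩
    induction n with
    | zero => exact ⟨le_rfl, (G_maps hr hG hx).2⟩
    | succ n ih =>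
      rw [iterate_succ_apply']
      have h1 : G^[n + 1] x ∈ Icc 0 (2 * Real.pi) := ⟨(hx0.trans hlt.le).trans ih.1, ih.2⟩
      exact ⟨ih.1.trans (le_G hr hG h1), (G_maps hr hG h1).2⟩
  have hcl : IsClosed (Circle.exp '' Icc (G x) (2 * Real.pi)) :=
    (isCompact_Icc.image Circle.exp.continuous).isClosed
  obtain ⟨y, hy, hyx⟩ := closure_minimal hsub hcl hz
  have hx0' : 0 < x := by
    rcases hx0.lt_or_eq with h | h
    · exact h
    · exfalso
      rw [← h, hG.fix _ (zero_exc hr hG).1] at hlt
      exact lt_irrefl _ hlt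
  rcases hy.2.lt_or_eq with h | h
  · have := exp_inj_Ico ((hx0.trans hlt.le).trans hy.1) hx0 h hx1 hyx
    have := hy.1
    linarith
  · rw [h, Circle.exp_two_pi, ← Circle.exp_zero] at hyx
    have := exp_inj_Ico le_rfl hx0 Real.two_pi_pos hx1 hyx
    linarith

theorem fixed_countable_iff : (fixedPoints g).Countable ↔ (Low r).Countable := by
  rw [← exc_countable_iff hr]
  constructor
  · intro h
    have h1 : (Exc r ∩ Iio (2 * Real.pi)).Countable := by
      refine countable_of_injective_of_countable_image (f := Circle.exp) ?_ (h.mono ?_)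
      · intro x hx y hy hxy
        exact exp_inj_Ico hx.1.1 hy.1.1 hx.2 hy.2 hxy
      · rintro _ ⟨x, hx, rfl⟩
        exact (fixed_iff hr hG hg hx.1.1 hx.2).2 hx.1
    refine (h1.union (countable_singleton (2 * Real.pi))).mono ?_
    intro x hx
    rcases hx.2.1.lt_or_eq with h2 | h2
    · exact Or.inl ⟨hx, h2⟩
    · exact Or.inr h2
  · intro h
    refine (h.image Circle.exp).mono ?_
    intro z hz
    obtain ⟨x, hx0, hx1, rfl⟩ := exists_exp z
    exact ⟨x, (fixed_iff hr hG hg hx0 hx1).1 hz, rfl⟩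

/-- the invariant -/
theorem skew_invariant : (recCl (skew g om)).Countable ↔ (Low r).Countable := by
  rw [recCl_skew_countable (recurrent_fixed hr hG hg), fixed_countable_iff hr hG hg]

end lift

end Pool.Agent.helper29.KS
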