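import Pool.Agent.helper29.KS.Smooth2
import Pool.Agent.helper29.KS.Dyn

/-!
# Periodic smooth functions are smooth on the circle
-/

open Set Filter Topology Function
open scoped Manifold ContDiff

noncomputable section

namespace Pool.Agent.helper29.KS

attribute [local instance] finrank_real_complex_fact'

theorem contMDiff_coe_circle : ContMDiff (𝓡 1) 𝓘(ℝ, ℂ) ∞ (fun z : Circle => (z : ℂ)) :=
  contMDiff_coe_sphere

/-- a local branch of the argument near `z₀` -/
def locArg (z₀ z : Circle) : ℝ := Complex.arg ((z * z₀⁻¹ : Circle) : ℂ) + Complex.arg (z₀ : ℂ)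

theorem exp_locArg (z₀ z : Circle) : Circle.exp (locArg z₀ z) = z := by
  rw [locArg, Circle.exp_add, Circle.exp_arg, Circle.exp_arg, inv_mul_cancel_right]

theorem locArg_smooth (z₀ : Circle) : ContMDiffAt (𝓡 1) 𝓘(ℝ, ℝ) ∞ (locArg z₀) z₀ := by
  have h1 : ContMDiffAt (𝓡 1) (𝓡 1) ∞ (fun z : Circle => z * z₀⁻¹) z₀ :=
    (contMDiff_mul_right (I := 𝓡 1) (a := z₀⁻¹)).contMDiffAt
  have h2 : ContMDiffAt (𝓡 1) 𝓘(ℝ, ℂ) ∞ (fun z : Circle => ((z * z₀⁻¹ : Circle) : ℂ)) z₀ :=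
    ContMDiffAt.comp z₀ contMDiff_coe_circle.contMDiffAt h1
  have h3 : ContDiffAt ℝ ∞ Complex.log (((z₀ * z₀⁻¹ : Circle)) : ℂ) := by
    rw [mul_inv_cancel, Circle.coe_one]
    exact (Complex.contDiffAt_log Complex.one_mem_slitPlane).restrict_scalars ℝ
  have h4 : ContDiffAt ℝ ∞ (fun w : ℂ => (Complex.log w).im) (((z₀ * z₀⁻¹ : Circle)) : ℂ) :=
    Complex.imCLM.contDiff.contDiffAt.comp _ h3
  have h5 : ContMDiffAt (𝓡 1) 𝓘(ℝ, ℝ) ∞
      (fun z : Circle => (Complex.log ((z * z₀⁻¹ : Circle) : ℂ)).im) z₀ :=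
    ContMDiffAt.comp z₀ (g := fun w : ℂ => (Complex.log w).im)
      (f := fun z : Circle => ((z * z₀⁻¹ : Circle) : ℂ)) h4.contMDiffAt h2
  have h6 : locArg z₀ = fun z : Circle =>
      (Complex.log ((z * z₀⁻¹ : Circle) : ℂ)).im + Complex.arg (z₀ : ℂ) := by
    funext z
    rw [locArg, Complex.log_im]
  rw [h6]
  exact h5.add contMDiffAt_const

theorem periodic_int {f : ℝ → ℝ} (hf : ∀ x, f (x + 2 * Real.pi) = f x) {x y : ℝ}
    (h : Circle.exp x = Circle.exp y) : f x = f y := by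
  obtain ⟨m, rfl⟩ := Circle.exp_eq_exp.1 h
  exact (show Periodic f (2 * Real.pi) from hf).int_mul m y

section

variable {B : Type*} [NormedAddCommGroup B] [NormedSpace ℝ B]

theorem descend_smooth {V : B × ℝ → ℝ} (hV : ContDiff ℝ ∞ V)
    (hper : ∀ b x, V (b, x + 2 * Real.pi) = V (b, x)) :
    ContMDiff (𝓘(ℝ, B).prod (𝓡 1)) 𝓘(ℝ, ℝ) ∞
      (fun p : B × Circle => V (p.1, Complex.arg (p.2 : ℂ))) := by
  rintro ⟨b₀, z₀⟩
  have h1 : (fun p : B × Circle => V (p.1, Complex.arg (p.2 : ℂ))) =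
      fun p : B × Circle => V (p.1, locArg z₀ p.2) := by
    funext p
    refine periodic_int (f := fun x => V (p.1, x)) (hper p.1) ?_
    rw [Circle.exp_arg, exp_locArg]
  rw [h1]
  have h2 : ContMDiffAt (𝓘(ℝ, B).prod (𝓡 1)) (𝓘(ℝ, B × ℝ)) ∞
      (fun p : B × Circle => (p.1, locArg z₀ p.2)) (b₀, z₀) := by
    apply ContMDiffAt.prodMk_space
    · exact contMDiffAt_fst
    · exact ContMDiffAt.comp (I' := 𝓡 1) (b₀, z₀) (g := locArg z₀) (f := Prod.snd) (locArg_smooth z₀) contMDiffAt_snd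
  exact ContMDiffAt.comp (b₀, z₀) (g := V) (f := fun p : B × Circle => (p.1, locArg z₀ p.2))
    hV.contMDiff.contMDiffAt h2

theorem descend_smooth_one {W : ℝ → ℝ} (hW : ContDiff ℝ ∞ W)
    (hper : ∀ x, W (x + 2 * Real.pi) = W x) :
    ContMDiff (𝓡 1) 𝓘(ℝ, ℝ) ∞ (fun z : Circle => W (Complex.arg (z : ℂ))) := by
  have h1 := descend_smooth (B := ℝ) (V := fun p => W p.2) (hW.comp contDiff_snd)
    (fun _ x => hper x)
  have h2 : ContMDiff (𝓡 1) (𝓘(ℝ, ℝ).prod (𝓡 1)) ∞ (fun z : Circle => ((0 : ℝ), z)) :=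
    contMDiff_const.prodMk contMDiff_id
  exact h1.comp h2

/-- the circle map with displacement `V` -/
theorem displace_smooth {V : B × ℝ → ℝ} (hV : ContDiff ℝ ∞ V)
    (hper : ∀ b x, V (b, x + 2 * Real.pi) = V (b, x)) :
    ContMDiff (𝓘(ℝ, B).prod (𝓡 1)) (𝓡 1) ∞
      (fun p : B × Circle => p.2 * Circle.exp (V (p.1, Complex.arg (p.2 : ℂ)))) :=
  contMDiff_snd.mul (contMDiff_circleExp.comp (descend_smooth hV hper))

theorem displace_smooth_one {W : ℝ → ℝ} (hW : ContDiff ℝ ∞ W)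
    (hper : ∀ x, W (x + 2 * Real.pi) = W x) :
    ContMDiff (𝓡 1) (𝓡 1) ∞
      (fun z : Circle => z * Circle.exp (W (Complex.arg (z : ℂ)))) :=
  contMDiff_id.mul (contMDiff_circleExp.comp (descend_smooth_one hW hper))

theorem displace_exp {W : ℝ → ℝ} (hper : ∀ x, W (x + 2 * Real.pi) = W x) (x : ℝ) :
    Circle.exp x * Circle.exp (W (Complex.arg (Circle.exp x : ℂ))) = Circle.exp (x + W x) := by
  rw [Circle.exp_add]
  congr 2
  apply periodic_int hper
  rw [Circle.exp_arg]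

end

/-- the circle diffeomorphism with parameter `b` -/
def gb (b : PB) (z : Circle) : Circle := z * Circle.exp (UU (b, Complex.arg (z : ℂ)))

theorem gb_exp (b : PB) (x : ℝ) : gb b (Circle.exp x) = Circle.exp (GG b x) :=
  displace_exp (W := fun x => UU (b, x)) (UU_periodic b) x

theorem gb_smooth : ContMDiff (𝓘(ℝ, PB).prod (𝓡 1)) (𝓡 1) ∞ (fun p : PB × Circle => gb p.1 p.2) :=
  displace_smooth UU_contDiff UU_periodic

theorem gb_smooth_one (b : PB) : ContMDiff (𝓡 1) (𝓡 1) ∞ (gb b) :=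
  displace_smooth_one (W := fun x => UU (b, x)) (UU_contDiff.comp (contDiff_const.prodMk contDiff_id))
    (UU_periodic b)

/-- the displacement of the inverse -/
def WW (b : PB) (x : ℝ) : ℝ := (GH b).symm x - x

theorem WW_periodic (b : PB) (x : ℝ) : WW b (x + 2 * Real.pi) = WW b x := by
  rw [WW, WW, GH_symm_add]
  ring

theorem WW_contDiff (b : PB) : ContDiff ℝ ∞ (WW b) := (GH_symm_contDiff b).sub contDiff_id

/-- the inverse circle diffeomorphism -/
def gbi (b : PB) (z : Circle) : Circle := z * Circle.exp (WW b (Complex.arg (z : ℂ)))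

theorem gbi_exp (b : PB) (x : ℝ) : gbi b (Circle.exp x) = Circle.exp ((GH b).symm x) := by
  rw [gbi, displace_exp (WW_periodic b)]
  congr 1
  rw [WW]
  ring

theorem gbi_smooth (b : PB) : ContMDiff (𝓡 1) (𝓡 1) ∞ (gbi b) :=
  displace_smooth_one (WW_contDiff b) (WW_periodic b)

theorem gbi_gb (b : PB) (z : Circle) : gbi b (gb b z) = z := by
  obtain ⟨x, -, -, rfl⟩ := exists_exp z
  rw [gb_exp, gbi_exp, ← GH_apply, Homeomorph.symm_apply_apply]

theorem gb_gbi (b : PB) (z : Circle) : gb b (gbi b z) = z := by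
  obtain ⟨x, -, -, rfl⟩ := exists_exp z
  rw [gbi_exp, gb_exp, ← GH_apply, Homeomorph.apply_symm_apply]

/-- the torus diffeomorphisms -/
def ff (r : ℕ∞) (b : PB) :
    Diffeomorph ((𝓡 1).prod (𝓡 1)) ((𝓡 1).prod (𝓡 1)) (Circle × Circle) (Circle × Circle)
      (r : WithTop ℕ∞) where
  toFun p := (gb b p.1, p.2 * om)
  invFun p := (gbi b p.1, p.2 * om⁻¹)
  left_inv p := by
    simp only [gbi_gb, mul_inv_cancel_right]
  right_inv p := by
    simp only [gb_gbi, inv_mul_cancel_right]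
  contMDiff_toFun := by
    apply ContMDiff.of_le (n := ∞) _ (by exact_mod_cast le_top)
    apply ContMDiff.prodMk
    · exact (gb_smooth_one b).comp contMDiff_fst
    · exact contMDiff_snd.mul contMDiff_const
  contMDiff_invFun := by
    apply ContMDiff.of_le (n := ∞) _ (by exact_mod_cast le_top)
    apply ContMDiff.prodMk
    · exact (gbi_smooth b).comp contMDiff_fst
    · exact contMDiff_snd.mul contMDiff_const

theorem ff_apply (r : ℕ∞) (b : PB) : (ff r b : Circle × Circle → Circle × Circle) = skew (gb b) om :=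
  rfl

/-- the family -/
def Phi (q : PB × (Circle × Circle)) : Circle × Circle := (gb q.1 q.2.1, q.2.2 * om)

theorem Phi_smooth : ContMDiff (𝓘(ℝ, PB).prod ((𝓡 1).prod (𝓡 1))) ((𝓡 1).prod (𝓡 1)) ∞ Phi := by
  apply ContMDiff.prodMk
  · exact gb_smooth.comp (contMDiff_fst.prodMk (contMDiff_fst.comp contMDiff_snd))
  · exact (contMDiff_snd.comp contMDiff_snd).mul contMDiff_const

end Pool.Agent.helper29.KS
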