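import Pool.Agent.helper29.KS.Dyn

/-!
# From conjugacies of interval maps to conjugacies of torus maps
-/

open Set Filter Topology Function

noncomputable section

namespace Pool.Agent.helper29.KS

/-- the closed interval -/
abbrev II : Type := Icc (0 : ℝ) (2 * Real.pi)

/-- the parametrisation of the circle -/
def qI (x : II) : Circle := Circle.exp x

theorem continuous_qI : Continuous qI := Circle.exp.continuous.comp continuous_subtype_val

theorem surjective_qI : Surjective qI := by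
  intro z
  obtain ⟨x, hx0, hx1, hx⟩ := exists_exp z
  exact ⟨⟨x, hx0, hx1.le⟩, hx⟩

theorem quotient_qI : IsQuotientMap qI :=
  (continuous_qI.isClosedMap).isQuotientMap continuous_qI surjective_qI

/-- the endpoints -/
def botI : II := ⟨0, le_rfl, Real.two_pi_pos.le⟩
/-- the endpoints -/
def topI : II := ⟨2 * Real.pi, Real.two_pi_pos.le, le_rfl⟩

theorem qI_eq {x y : II} (h : qI x = qI y) :
    x = y ∨ (x = botI ∧ y = topI) ∨ (x = topI ∧ y = botI) := by
  rcases x.2.2.lt_or_eq with hx | hx <;> rcases y.2.2.lt_or_eq with hy | hy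
  · exact Or.inl (Subtype.ext (exp_inj_Ico x.2.1 y.2.1 hx hy h))
  · right; left
    refine ⟨Subtype.ext ?_, Subtype.ext hy⟩
    have h1 : Circle.exp x = Circle.exp 0 := by
      have h2 : Circle.exp x = Circle.exp y := h
      rw [h2, hy, Circle.exp_zero, Circle.exp_two_pi]
    exact exp_inj_Ico x.2.1 le_rfl hx Real.two_pi_pos h1
  · right; right
    refine ⟨Subtype.ext hx, Subtype.ext ?_⟩
    have h1 : Circle.exp y = Circle.exp 0 := by
      have h2 : Circle.exp x = Circle.exp y := h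
      rw [← h2, hx, Circle.exp_zero, Circle.exp_two_pi]
    exact exp_inj_Ico y.2.1 le_rfl hy Real.two_pi_pos h1
  · exact Or.inl (Subtype.ext (hx.trans hy.symm))

theorem qI_ends : qI botI = qI topI := by
  show Circle.exp 0 = Circle.exp (2 * Real.pi)
  rw [Circle.exp_zero, Circle.exp_two_pi]

theorem exists_descend (K : II → II) (hK : Continuous K) (h0 : K botI = botI) (h1 : K topI = topI) :
    ∃ h : Circle → Circle, Continuous h ∧ ∀ x, h (qI x) = qI (K x) := by
  have hdesc : ∀ x y, qI x = qI y → qI (K x) = qI (K y) := by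
    intro x y hxy
    rcases qI_eq hxy with rfl | ⟨rfl, rfl⟩ | ⟨rfl, rfl⟩
    · rfl
    · rw [h0, h1]; exact qI_ends
    · rw [h0, h1]; exact qI_ends.symm
  refine ⟨fun z => qI (K (surjInv surjective_qI z)), ?_, ?_⟩
  · rw [quotient_qI.continuous_iff]
    have e : ((fun z => qI (K (surjInv surjective_qI z))) ∘ qI) = fun x => qI (K x) := by
      funext x
      exact hdesc _ _ (surjInv_eq surjective_qI (qI x))
    rw [e]
    exact continuous_qI.comp hK
  · intro x
    exact hdesc _ _ (surjInv_eq surjective_qI (qI x))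

theorem descend_homeo (K : II ≃o II) : ∃ h : Circle ≃ₜ Circle, ∀ x, h (qI x) = qI (K x) := by
  have hb : ∀ K : II ≃o II, K botI = botI := by
    intro K
    apply le_antisymm
    · rw [← K.le_symm_apply]
      exact (K.symm botI).2.1
    · exact (K botI).2.1
  have ht : ∀ K : II ≃o II, K topI = topI := by
    intro K
    apply le_antisymm
    · exact (K topI).2.2
    · rw [← K.symm_apply_le]
      exact (K.symm topI).2.2
  obtain ⟨h, hc, hh⟩ := exists_descend K K.continuous (hb K) (ht K)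
  obtain ⟨h', hc', hh'⟩ := exists_descend K.symm K.symm.continuous (hb K.symm) (ht K.symm)
  refine ⟨⟨⟨h, h', ?_, ?_⟩, hc, hc'⟩, hh⟩
  · intro z
    obtain ⟨x, rfl⟩ := surjective_qI z
    rw [hh, hh', K.symm_apply_apply]
  · intro z
    obtain ⟨x, rfl⟩ := surjective_qI z
    rw [hh', hh, K.apply_symm_apply]

section

variable {r r' : ℕ → ℕ → Prop} (hr : STO r) (hr' : STO r') (σ : ℕ ≃ ℕ)
  (hσ : ∀ m n, r m n ↔ r' (σ m) (σ n)) {G G' : ℝ → ℝ} (hG : Pattern r G) (hG' : Pattern r' G')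
  {g g' : Circle → Circle} (hg : ∀ x, g (Circle.exp x) = Circle.exp (G x))
  (hg' : ∀ x, g' (Circle.exp x) = Circle.exp (G' x))

include hr hr' hσ hG hG' hg hg'

theorem circle_conj : ∃ h : Circle ≃ₜ Circle, ∀ z, h (g z) = g' (h z) := by
  obtain ⟨H, h1, h2, h3, h4⟩ := exists_global hr hr' σ hσ hG hG'
  obtain ⟨K₀, hK₀⟩ : ∃ K₀ : II → II, ∀ x, (K₀ x : ℝ) = H x := ⟨fun x => ⟨H x, h2 x.2⟩, fun _ => rfl⟩
  have hmono : StrictMono K₀ := by
    intro x y hxy
    show (K₀ x : ℝ) < K₀ y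
    rw [hK₀, hK₀]
    exact h1 x.2 y.2 hxy
  have hsurj : Surjective K₀ := by
    intro y
    obtain ⟨x, hx, hxy⟩ := h3 y.2
    exact ⟨⟨x, hx⟩, Subtype.ext (by rw [hK₀]; exact hxy)⟩
  obtain ⟨h, hh⟩ := descend_homeo (hmono.orderIsoOfSurjective K₀ hsurj)
  have hh' : ∀ x (hx : x ∈ Icc 0 (2 * Real.pi)), h (Circle.exp x) = Circle.exp (H x) := by
    intro x hx
    have := hh ⟨x, hx⟩
    show h (qI ⟨x, hx⟩) = _
    rw [this]
    show Circle.exp (K₀ ⟨x, hx⟩ : ℝ) = _
    rw [hK₀]
  refine ⟨h, fun z => ?_⟩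
  obtain ⟨x, hx0, hx1, rfl⟩ := exists_exp z
  have hx : x ∈ Icc 0 (2 * Real.pi) := ⟨hx0, hx1.le⟩
  rw [hg, hh' _ (G_maps hr hG hx), hh' _ hx, hg', h4 x hx]

theorem torus_conj : ∃ h : Circle × Circle ≃ₜ Circle × Circle,
    ∀ p, h (skew g om p) = skew g' om (h p) := by
  obtain ⟨h, hh⟩ := circle_conj hr hr' σ hσ hG hG' hg hg'
  refine ⟨h.prodCongr (Homeomorph.refl Circle), fun p => ?_⟩
  exact Prod.ext (hh p.1) rfl

end

end Pool.Agent.helper29.KS
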