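import Pool.Agent.helper29.KS.Trees

/-!
# The (reversed) Kleene-Brouwer order attached to a tree
-/

open Filter Topology

namespace Pool.Agent.helper29.KS

/-- reversed Kleene-Brouwer order on finite sequences -/
def kbr : List ℕ → List ℕ → Prop
  | _, [] => False
  | [], _ :: _ => True
  | a :: s, b :: t => b < a ∨ (a = b ∧ kbr s t)

@[simp] theorem kbr_nil_right (s : List ℕ) : kbr s [] ↔ False := by cases s <;> simp [kbr]
@[simp] theorem kbr_nil_cons (b : ℕ) (t : List ℕ) : kbr [] (b :: t) ↔ True := by simp [kbr]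
@[simp] theorem kbr_cons_cons (a b : ℕ) (s t : List ℕ) :
    kbr (a :: s) (b :: t) ↔ b < a ∨ (a = b ∧ kbr s t) := by simp [kbr]

theorem kbr_irrefl (s : List ℕ) : ¬ kbr s s := by
  induction s with
  | nil => simp
  | cons a s ih => simp [ih]

theorem kbr_trans (s t u : List ℕ) : kbr s t → kbr t u → kbr s u := by
  induction s generalizing t u with
  | nil =>
    intro h1 h2
    cases u with
    | nil => simp at h2
    | cons c u => simp
  | cons a s ih =>
    intro h1 h2
    cases t with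
    | nil => simp at h1
    | cons b t =>
      cases u with
      | nil => simp at h2
      | cons c u =>
        rw [kbr_cons_cons] at h1 h2 ⊢
        rcases h1 with h1 | ⟨rfl, h1⟩
        · rcases h2 with h2 | ⟨rfl, h2⟩
          · exact Or.inl (h2.trans h1)
          · exact Or.inl h1
        · rcases h2 with h2 | ⟨rfl, h2⟩
          · exact Or.inl h2
          · exact Or.inr ⟨rfl, ih _ _ h1 h2⟩

theorem kbr_total (s t : List ℕ) : kbr s t ∨ s = t ∨ kbr t s := by
  induction s generalizing t with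
  | nil =>
    cases t with
    | nil => simp
    | cons b t => simp
  | cons a s ih =>
    cases t with
    | nil => simp
    | cons b t =>
      rw [kbr_cons_cons, kbr_cons_cons]
      rcases lt_trichotomy a b with h | h | h
      · exact Or.inr (Or.inr (Or.inl h))
      · subst h
        rcases ih t with h | h | h
        · exact Or.inl (Or.inr ⟨rfl, h⟩)
        · rw [h]; exact Or.inr (Or.inl rfl)
        · exact Or.inr (Or.inr (Or.inr ⟨rfl, h⟩))
      · exact Or.inl (Or.inl h)

theorem kbr_append_single (s : List ℕ) (a : ℕ) : kbr s (s ++ [a]) := by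
  induction s with
  | nil => simp
  | cons b s ih => simp [ih]

/-- the nodes of the tree `T`: sequences all of whose initial segments belong to `T` -/
def Node (T : Tr) (s : List ℕ) : Prop := ∀ p ∈ s.inits, T p = true

theorem pre_succ (y : ℕ → ℕ) (n : ℕ) : pre y (n + 1) = pre y n ++ [y n] := by
  rw [pre, List.ofFn_succ', List.concat_eq_append]
  rfl

theorem node_pre {T : Tr} {y : ℕ → ℕ} (hy : ∀ n, T (pre y n) = true) (n : ℕ) :
    Node T (pre y n) := by
  intro p hp
  rw [List.mem_inits] at hp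
  have h1 : ∃ m, p = pre y m := by
    induction n with
    | zero =>
      have : pre y 0 = [] := rfl
      rw [this, List.prefix_nil] at hp
      exact ⟨0, hp⟩
    | succ n ih =>
      rw [pre_succ, List.prefix_concat_iff] at hp
      rcases hp with hp | hp
      · exact ⟨n + 1, by rw [pre_succ]; exact hp⟩
      · exact ih hp
  obtain ⟨m, rfl⟩ := h1
  exact hy m

/-- the strict order attached to `T` -/
def ltT (T : Tr) (s t : List ℕ) : Prop :=
  (Node T s ∧ Node T t ∧ kbr s t) ∨ (Node T s ∧ ¬ Node T t) ∨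
    (¬ Node T s ∧ ¬ Node T t ∧ Encodable.encode t < Encodable.encode s)

theorem ltT_irrefl (T : Tr) (s : List ℕ) : ¬ ltT T s s := by
  rintro (⟨_, _, h⟩ | ⟨h1, h2⟩ | ⟨_, _, h⟩)
  · exact kbr_irrefl s h
  · exact h2 h1
  · exact lt_irrefl _ h

theorem ltT_trans (T : Tr) (s t u : List ℕ) : ltT T s t → ltT T t u → ltT T s u := by
  rintro (⟨h1, h2, h3⟩ | ⟨h1, h2⟩ | ⟨h1, h2, h3⟩) (⟨k1, k2, k3⟩ | ⟨k1, k2⟩ | ⟨k1, k2, k3⟩)
  · exact Or.inl ⟨h1, k2, kbr_trans _ _ _ h3 k3⟩
  · exact Or.inr (Or.inl ⟨h1, k2⟩)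
  · exact absurd h2 k1
  · exact absurd k1 h2
  · exact absurd k1 h2
  · exact Or.inr (Or.inl ⟨h1, k2⟩)
  · exact absurd k1 h2
  · exact absurd k1 h2
  · exact Or.inr (Or.inr ⟨h1, k2, k3.trans h3⟩)

theorem ltT_total (T : Tr) (s t : List ℕ) : ltT T s t ∨ s = t ∨ ltT T t s := by
  by_cases hs : Node T s <;> by_cases ht : Node T t
  · rcases kbr_total s t with h | h | h
    · exact Or.inl (Or.inl ⟨hs, ht, h⟩)
    · exact Or.inr (Or.inl h)
    · exact Or.inr (Or.inr (Or.inl ⟨ht, hs, h⟩))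
  · exact Or.inl (Or.inr (Or.inl ⟨hs, ht⟩))
  · exact Or.inr (Or.inr (Or.inr (Or.inl ⟨ht, hs⟩)))
  · rcases lt_trichotomy (Encodable.encode s) (Encodable.encode t) with h | h | h
    · exact Or.inr (Or.inr (Or.inr (Or.inr ⟨ht, hs, h⟩)))
    · exact Or.inr (Or.inl (Encodable.encode_injective h))
    · exact Or.inl (Or.inr (Or.inr ⟨hs, ht, h⟩))

/-- the linearly ordered set attached to `T` -/
@[nolint unusedArguments]
def LT' (_ : Tr) : Type := List ℕ

instance (T : Tr) : Countable (LT' T) := inferInstanceAs (Countable (List ℕ))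

open Classical in
noncomputable instance (T : Tr) : LinearOrder (LT' T) :=
  @linearOrderOfSTO (LT' T) (ltT T)
    { irrefl := ltT_irrefl T, trans := ltT_trans T, trichotomous := fun a b h1 h2 => by
        rcases ltT_total T a b with h | h | h
        · exact absurd h h1
        · exact h
        · exact absurd h h2 } _

theorem lt_iff_ltT {T : Tr} {s t : LT' T} : s < t ↔ ltT T s t := Iff.rfl

theorem not_wf_of_branching {T : Tr} (hT : T ∈ Branching) : ¬ WellFoundedGT (LT' T) := by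
  obtain ⟨y, hy⟩ := hT
  intro h
  have h1 := (RelEmbedding.wellFounded_iff_isEmpty (r := ((· > ·) : LT' T → LT' T → Prop))).1 h.wf
  refine h1.false (RelEmbedding.natGT (fun n => (pre y n : LT' T)) (fun n => ?_))
  show ltT T (pre y n) (pre y (n + 1))
  refine Or.inl ⟨node_pre hy n, node_pre hy (n + 1), ?_⟩
  rw [pre_succ]
  exact kbr_append_single _ _

/-- ascending sequences -/
def Asc (s : ℕ → List ℕ) : Prop := ∀ n, kbr (s n) (s (n + 1))

theorem asc_step {s : ℕ → List ℕ} (hs : Asc s) :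
    ∃ (a i₀ : ℕ) (s' : ℕ → List ℕ), (∀ i, s (i + i₀) = a :: s' i) ∧ Asc s' := by
  have h1 : ∀ n, ∃ a t, s (n + 1) = a :: t := by
    intro n
    have := hs n
    cases h : s (n + 1) with
    | nil => rw [h] at this; simp at this
    | cons a t => exact ⟨a, t, rfl⟩
  choose h t ht using h1
  have hmono : ∀ n, h (n + 1) ≤ h n ∧ (h (n + 1) = h n → kbr (t n) (t (n + 1))) := by
    intro n
    have := hs (n + 1)
    rw [ht n, ht (n + 1), kbr_cons_cons] at this
    rcases this with h1 | ⟨h1, h2⟩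
    · exact ⟨h1.le, fun h' => absurd h' h1.ne⟩
    · exact ⟨h1.symm.le, fun _ => h2⟩
  have hanti : Antitone h := antitone_nat_of_succ_le (fun n => (hmono n).1)
  obtain ⟨i₀, hi₀⟩ : ∃ i₀, ∀ n, h i₀ ≤ h n := by
    obtain ⟨m, ⟨i, rfl⟩, hm⟩ := WellFounded.has_min Nat.lt_wfRel.wf (Set.range h) ⟨h 0, ⟨0, rfl⟩⟩
    exact ⟨i, fun n => not_lt.1 (hm _ ⟨n, rfl⟩)⟩
  have hconst : ∀ n, i₀ ≤ n → h n = h i₀ := fun n hn => le_antisymm (hanti hn) (hi₀ n)
  refine ⟨h i₀, i₀ + 1, fun i => t (i + i₀), ?_, ?_⟩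
  · intro i
    have : s (i + (i₀ + 1)) = h (i + i₀) :: t (i + i₀) := ht (i + i₀)
    rw [this, hconst (i + i₀) (by omega)]
  · intro n
    have h2 := (hmono (n + i₀)).2 (by
      rw [hconst (n + i₀ + 1) (by omega), hconst (n + i₀) (by omega)])
    have e : n + 1 + i₀ = n + i₀ + 1 := by omega
    show kbr (t (n + i₀)) (t (n + 1 + i₀))
    rw [e]
    exact h2

theorem exists_branch_of_asc {s : ℕ → List ℕ} (hs : Asc s) :
    ∃ y : ℕ → ℕ, ∀ k, ∃ j, pre y k <+: s j := by
  have hstep : ∀ σ : {s : ℕ → List ℕ // Asc s}, ∃ (a i₀ : ℕ) (s' : {s : ℕ → List ℕ // Asc s}),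
      ∀ i, σ.1 (i + i₀) = a :: s'.1 i := by
    intro σ
    obtain ⟨a, i₀, s', h1, h2⟩ := asc_step σ.2
    exact ⟨a, i₀, ⟨s', h2⟩, h1⟩
  choose a i₀ nxt hnxt using hstep
  obtain ⟨st, hst0, hsts⟩ : ∃ st : ℕ → {s : ℕ → List ℕ // Asc s}, st 0 = ⟨s, hs⟩ ∧
      ∀ k, st (k + 1) = nxt (st k) :=
    ⟨fun k => Nat.rec ⟨s, hs⟩ (fun _ x => nxt x) k, rfl, fun _ => rfl⟩
  refine ⟨fun k => a (st k), fun k => ?_⟩
  have key : ∀ k i, ∃ j, s j = pre (fun k => a (st k)) k ++ (st k).1 i := by
    intro k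
    induction k with
    | zero =>
      intro i
      refine ⟨i, ?_⟩
      rw [hst0]
      rfl
    | succ k ih =>
      intro i
      obtain ⟨j, hj⟩ := ih (i + i₀ (st k))
      refine ⟨j, ?_⟩
      rw [hj, hnxt, pre_succ, hsts]
      simp
  obtain ⟨j, hj⟩ := key k 0
  exact ⟨j, by rw [hj]; exact List.prefix_append _ _⟩

theorem wf_of_not_branching {T : Tr} (hT : T ∉ Branching) : WellFoundedGT (LT' T) := by
  refine ⟨(RelEmbedding.wellFounded_iff_isEmpty).2 ⟨fun f => hT ?_⟩⟩
  obtain ⟨g, hf⟩ : ∃ g : ℕ → List ℕ, ∀ n, ltT T (g n) (g (n + 1)) :=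
    ⟨fun n => f n, fun n => f.map_rel_iff.2 (Nat.lt_succ_self n)⟩
  have hnode : ∀ n, Node T (g n) := by
    by_contra hcon
    push Not at hcon
    obtain ⟨n, hn⟩ := hcon
    have h1 : ∀ k, ¬ Node T (g (n + k)) ∧ Encodable.encode (g (n + k)) + k ≤
        Encodable.encode (g n) := by
      intro k
      induction k with
      | zero => exact ⟨hn, le_rfl⟩
      | succ k ih =>
        have h2 := hf (n + k)
        rcases h2 with ⟨h3, _, _⟩ | ⟨h3, _⟩ | ⟨_, h4, h5⟩
        · exact absurd h3 ih.1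
        · exact absurd h3 ih.1
        · refine ⟨h4, ?_⟩
          have := ih.2
          show Encodable.encode (g (n + k + 1)) + (k + 1) ≤ _
          omega
    have := (h1 (Encodable.encode (g n) + 1)).2
    omega
  have hasc : Asc g := by
    intro n
    rcases hf n with ⟨_, _, h⟩ | ⟨_, h⟩ | ⟨h, _⟩
    · exact h
    · exact absurd (hnode _) h
    · exact absurd (hnode _) h
  obtain ⟨y, hy⟩ := exists_branch_of_asc hasc
  refine ⟨y, fun n => ?_⟩
  obtain ⟨j, hj⟩ := hy n
  exact hnode j _ ((List.mem_inits _ _).2 hj)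

theorem isClopen_node (s : List ℕ) : IsClopen {T : Tr | Node T s} := by
  have h1 : {T : Tr | Node T s} = ⋂ p ∈ {p | p ∈ s.inits}, (fun T : Tr => T p) ⁻¹' {true} := by
    ext T
    simp [Node]
  rw [h1]
  have hfin : {p | p ∈ s.inits}.Finite := List.finite_toSet s.inits
  apply hfin.isClopen_biInter
  intro p _
  exact (isClopen_discrete {true}).preimage (continuous_apply p)

theorem isClopen_ltT (s t : List ℕ) : IsClopen {T : Tr | ltT T s t} := by
  have hs := isClopen_node s
  have ht := isClopen_node t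
  have h0 : ∀ P : Prop, IsClopen {_T : Tr | P} := by
    intro P
    by_cases h : P
    · simp [h, isClopen_univ]
    · simp [h, isClopen_empty]
  exact (hs.inter (ht.inter (h0 _))).union ((hs.inter ht.compl).union
    (hs.compl.inter (ht.compl.inter (h0 _))))

end Pool.Agent.helper29.KS
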