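import Mathlib

/-!
# Lexicographic powers of `ℤ`

For a countable linear order `L` let `ZP L = Lex (L →₀ ℤ)`.
If `(>)` is well-founded on `L` then `ZP L` has only countably many lower sets;
otherwise `ZP L` is isomorphic to the lexicographic product `ℚ × ZP L`.
-/

namespace Pool.Agent.helper29.KS

/-- lexicographic power of the integers -/
abbrev ZP (L : Type*) [LinearOrder L] : Type _ := Lex (L →₀ ℤ)

variable {L : Type*} [LinearOrder L]

theorem zp_lt {f g : ZP L} : f < g ↔ ∃ i, (∀ j, j < i → f j = g j) ∧ f i < g i :=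
  Finsupp.Lex.lt_iff

section wf

/-- block lower sets -/
def blk (f : ZP L) (l : L) : Set (ZP L) := {h | ∃ j ≤ l, (∀ i, i < j → h i = f i) ∧ h j < f j}

open Classical in
theorem lowerSet_form [WellFoundedGT L] (A : LowerSet (ZP L)) (h1 : (A : Set (ZP L)).Nonempty)
    (h2 : (A : Set (ZP L)) ≠ Set.univ) : ∃ f l, (A : Set (ZP L)) = blk f l := by
  obtain ⟨f₀, hf₀⟩ := h1
  obtain ⟨g₀, hg₀⟩ := (Set.ne_univ_iff_exists_notMem _).1 h2
  have hfg : ∀ f ∈ A, ∀ g ∉ A, f < g := by
    intro f hf g hg
    by_contra hcon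
    exact hg (A.lower (not_lt.1 hcon) hf)
  obtain ⟨D, hD⟩ : ∃ D : Set L, D = {l | ∃ f ∈ A, ∃ g ∉ A, (∀ i, i < l → f i = g i) ∧ f l < g l} :=
    ⟨_, rfl⟩
  have hDne : D.Nonempty := by
    obtain ⟨i, hi1, hi2⟩ := zp_lt.1 (hfg f₀ hf₀ g₀ hg₀)
    exact ⟨i, by rw [hD]; exact ⟨f₀, hf₀, g₀, hg₀, hi1, hi2⟩⟩
  obtain ⟨l, hl, hmax⟩ := WellFounded.has_min (wellFounded_gt (α := L)) D hDne
  rw [hD] at hl
  obtain ⟨f, hf, g, hg, hfg1, hfg2⟩ := hl
  -- the family of modifications
  obtain ⟨F, hF⟩ : ∃ F : ℤ → ZP L, F = fun k => toLex ((ofLex f).update l k) := ⟨_, rfl⟩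
  have hFl : ∀ k, F k l = k := by
    intro k; rw [hF]
    show (Finsupp.update (ofLex f) l k) l = k
    rw [Finsupp.coe_update, Function.update_self]
  have hFne : ∀ k i, i ≠ l → F k i = f i := by
    intro k i hi
    rw [hF]
    show (Finsupp.update (ofLex f) l k) i = f i
    rw [Finsupp.coe_update, Function.update_of_ne hi]
  have hF0 : F (f l) ∈ A := by
    have : F (f l) = f := by
      apply Finsupp.ext
      intro i
      by_cases hi : i = l
      · rw [hi]; exact hFl _
      · exact hFne _ _ hi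
    rw [this]; exact hf
  have hF1 : F (g l + 1) ∉ A := by
    intro hcon
    apply hg
    apply A.lower _ hcon
    apply le_of_lt
    rw [zp_lt]
    refine ⟨l, fun j hj => ?_, ?_⟩
    · rw [hFne _ _ hj.ne, hfg1 j hj]
    · rw [hFl]; omega
  obtain ⟨k, hk, hk1⟩ : ∃ k, F k ∈ A ∧ F (k + 1) ∉ A := by
    by_contra hcon
    push Not at hcon
    have h3 : ∀ n : ℕ, F (f l + n) ∈ A := by
      intro n
      induction n with
      | zero => simpa using hF0
      | succ n ih =>
        have := hcon _ ih
        push_cast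
        rwa [add_assoc] at this
    apply hF1
    have := h3 (g l + 1 - f l).toNat
    rwa [Int.toNat_of_nonneg (by omega), add_sub_cancel] at this
  refine ⟨F (k + 1), l, ?_⟩
  ext h
  constructor
  · intro hh
    obtain ⟨j, hj1, hj2⟩ := zp_lt.1 (hfg h hh _ hk1)
    by_cases hjl : j ≤ l
    · exact ⟨j, hjl, hj1, hj2⟩
    · exfalso
      rw [not_le] at hjl
      apply hmax j _ hjl
      rw [hD]
      exact ⟨h, hh, _, hk1, hj1, hj2⟩
  · rintro ⟨j, hj, hj1, hj2⟩
    rcases hj.lt_or_eq with hj' | rfl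
    · apply A.lower _ hk
      apply le_of_lt
      rw [zp_lt]
      refine ⟨j, fun i hi => ?_, ?_⟩
      · rw [hj1 i hi, hFne _ _ (hi.trans hj').ne, hFne _ _ (hi.trans hj').ne]
      · rw [hFne _ _ hj'.ne] at hj2 ⊢
        exact hj2
    · rw [hFl] at hj2
      rcases (Int.lt_add_one_iff.1 hj2).lt_or_eq with h3 | h3
      · apply A.lower _ hk
        apply le_of_lt
        rw [zp_lt]
        refine ⟨j, fun i hi => ?_, ?_⟩
        · rw [hj1 i hi, hFne _ _ hi.ne, hFne _ _ hi.ne]
        · rw [hFl]; exact h3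
      · by_contra hcon
        obtain ⟨i, hi1, hi2⟩ := zp_lt.1 (hfg _ hk h hcon)
        have hij : j < i := by
          by_contra hij
          rw [not_lt] at hij
          rcases hij.lt_or_eq with hij | rfl
          · rw [hj1 i hij, hFne _ _ hij.ne, hFne _ _ hij.ne] at hi2
            exact lt_irrefl _ hi2
          · rw [hFl, h3] at hi2
            exact lt_irrefl _ hi2
        apply hmax i _ hij
        rw [hD]
        exact ⟨_, hk, h, hcon, hi1, hi2⟩

theorem countable_lowerSet [Countable L] [WellFoundedGT L] : Countable (LowerSet (ZP L)) := by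
  have hc : Countable (ZP L) := inferInstanceAs (Countable (L →₀ ℤ))
  have h1 : (Set.range (fun A : LowerSet (ZP L) => (A : Set (ZP L)))) ⊆
      {∅} ∪ {Set.univ} ∪ Set.range (fun p : ZP L × L => blk p.1 p.2) := by
    rintro _ ⟨A, rfl⟩
    by_cases h1 : (A : Set (ZP L)).Nonempty
    · by_cases h2 : (A : Set (ZP L)) = Set.univ
      · exact Or.inl (Or.inr h2)
      · obtain ⟨f, l, h⟩ := lowerSet_form A h1 h2
        exact Or.inr ⟨(f, l), h.symm⟩
    · exact Or.inl (Or.inl (Set.not_nonempty_iff_eq_empty.1 h1))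
  have h2 : (Set.range (fun A : LowerSet (ZP L) => (A : Set (ZP L)))).Countable :=
    (((Set.countable_singleton _).union (Set.countable_singleton _)).union
      (Set.countable_range _)).mono h1
  rw [← Set.image_univ] at h2
  exact Set.countable_univ_iff.1
    (Set.countable_of_injective_of_countable_image SetLike.coe_injective.injOn h2)

end wf

section notwf

variable (L)

/-- the lower part of `L` -/
def LowP (l : L) : Prop := ¬ Acc (· > ·) l

theorem lowP_lower {l m : L} (h : m < l) (hl : LowP L l) : LowP L m :=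
  fun hm => hl (hm.inv h)

theorem exists_gt_lowP {l : L} (hl : LowP L l) : ∃ m, l < m ∧ LowP L m := by
  by_contra hcon
  push Not at hcon
  apply hl
  constructor
  intro m hm
  by_contra h
  exact hcon m hm h

theorem exists_lowP (h : ¬ WellFoundedGT L) : ∃ l, LowP L l := by
  by_contra hcon
  push Not at hcon
  apply h
  refine ⟨⟨fun l => ?_⟩⟩
  by_contra hl
  exact hcon l hl

open Classical in
/-- splitting a finitely supported function -/
noncomputable def splitF : ZP L ≃o Lex (ZP {l // LowP L l} × ZP {l // ¬ LowP L l}) :=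
  OrderIso.ofRelIsoLT
    { toFun := fun f => toLex (toLex ((ofLex f).subtypeDomain (LowP L)),
        toLex ((ofLex f).subtypeDomain (fun l => ¬ LowP L l)))
      invFun := fun p => toLex (Finsupp.piecewise (ofLex (ofLex p).1) (ofLex (ofLex p).2))
      left_inv := by
        intro f
        apply Finsupp.ext
        intro l
        show (Finsupp.piecewise ((ofLex f).subtypeDomain (LowP L))
          ((ofLex f).subtypeDomain (fun l => ¬ LowP L l))) l = f l
        rw [Finsupp.piecewise_apply]
        split_ifs <;> rfl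
      right_inv := by
        intro p
        apply Prod.ext
        · exact Finsupp.subtypeDomain_piecewise _ _
        · exact Finsupp.subtypeDomain_not_piecewise _ _
      map_rel_iff' := by
        intro f g
        rw [Equiv.coe_fn_mk, Prod.Lex.toLex_lt_toLex]
        constructor
        · rintro (h | ⟨h1, h2⟩)
          · rw [zp_lt] at h ⊢
            obtain ⟨⟨i, hi⟩, hi1, hi2⟩ := h
            exact ⟨i, fun j hj => hi1 ⟨j, lowP_lower L hj hi⟩ hj, hi2⟩
          · rw [zp_lt] at h2 ⊢
            obtain ⟨⟨i, hi⟩, hi1, hi2⟩ := h2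
            refine ⟨i, fun j hj => ?_, hi2⟩
            by_cases hj' : LowP L j
            · have h3 : (ofLex f).subtypeDomain (LowP L) = (ofLex g).subtypeDomain (LowP L) := h1
              exact DFunLike.congr_fun h3 ⟨j, hj'⟩
            · exact hi1 ⟨j, hj'⟩ hj
        · intro h
          obtain ⟨i, hi1, hi2⟩ := zp_lt.1 h
          by_cases hi : LowP L i
          · left
            rw [zp_lt]
            exact ⟨⟨i, hi⟩, fun j hj => hi1 j.1 hj, hi2⟩
          · right
            constructor
            · apply Finsupp.ext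
              rintro ⟨j, hj⟩
              apply hi1
              by_contra hcon
              rw [not_lt] at hcon
              rcases hcon.lt_or_eq with hcon | rfl
              · exact hi (lowP_lower L hcon hj)
              · exact hi hj
            · rw [zp_lt]
              exact ⟨⟨i, hi⟩, fun j hj => hi1 j.1 hj, hi2⟩ }

theorem lt_add_single (f : ZP L) (l : L) : f < toLex (ofLex f + Finsupp.single l 1) := by
  rw [zp_lt]
  refine ⟨l, fun j hj => ?_, ?_⟩
  · show f j = (ofLex f + Finsupp.single l 1 : L →₀ ℤ) j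
    rw [Finsupp.add_apply, Finsupp.single_eq_of_ne hj.ne, add_zero]
  · show f l < (ofLex f + Finsupp.single l 1 : L →₀ ℤ) l
    rw [Finsupp.add_apply, Finsupp.single_eq_same]
    show f l < f l + 1
    omega

theorem sub_single_lt (f : ZP L) (l : L) : toLex (ofLex f - Finsupp.single l 1) < f := by
  rw [zp_lt]
  refine ⟨l, fun j hj => ?_, ?_⟩
  · show (ofLex f - Finsupp.single l 1 : L →₀ ℤ) j = f j
    rw [Finsupp.sub_apply, Finsupp.single_eq_of_ne hj.ne, sub_zero]
  · show (ofLex f - Finsupp.single l 1 : L →₀ ℤ) l < f l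
    rw [Finsupp.sub_apply, Finsupp.single_eq_same]
    show f l - 1 < f l
    omega

variable {L}

theorem dense_of_noMax [NoMaxOrder L] : DenselyOrdered (ZP L) := by
  constructor
  intro f g hfg
  obtain ⟨i, hi1, hi2⟩ := zp_lt.1 hfg
  obtain ⟨m, hm⟩ := exists_gt i
  refine ⟨toLex (ofLex f + Finsupp.single m 1), lt_add_single L f m, ?_⟩
  rw [zp_lt]
  have hj : ∀ j, j < m → (toLex (ofLex f + Finsupp.single m 1) : ZP L) j = f j := by
    intro j hj
    show (ofLex f + Finsupp.single m 1 : L →₀ ℤ) j = f j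
    rw [Finsupp.add_apply, Finsupp.single_eq_of_ne hj.ne, add_zero]
  refine ⟨i, fun j hji => ?_, ?_⟩
  · rw [hj j (hji.trans hm), hi1 j hji]
  · rw [hj i hm]; exact hi2

theorem exists_iso [Countable L] (h : ¬ WellFoundedGT L) : Nonempty (ZP L ≃o Lex (ℚ × ZP L)) := by
  obtain ⟨l₀, hl₀⟩ := exists_lowP L h
  have hne : Nonempty {l // LowP L l} := ⟨⟨l₀, hl₀⟩⟩
  have hmax : NoMaxOrder {l // LowP L l} := by
    constructor
    rintro ⟨l, hl⟩
    obtain ⟨m, hm, hm'⟩ := exists_gt_lowP L hl
    exact ⟨⟨m, hm'⟩, hm⟩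
  have h1 : DenselyOrdered (ZP {l // LowP L l}) := dense_of_noMax
  have h2 : NoMaxOrder (ZP {l // LowP L l}) := ⟨fun f => ⟨_, lt_add_single _ f ⟨l₀, hl₀⟩⟩⟩
  have h3 : NoMinOrder (ZP {l // LowP L l}) := ⟨fun f => ⟨_, sub_single_lt _ f ⟨l₀, hl₀⟩⟩⟩
  have h4 : Nonempty (ZP {l // LowP L l}) := ⟨toLex 0⟩
  have h5 : Countable (ZP {l // LowP L l}) := inferInstanceAs (Countable ({l // LowP L l} →₀ ℤ))
  have h6 : Countable (Lex (ℚ × ZP {l // LowP L l})) :=
    inferInstanceAs (Countable (ℚ × ({l // LowP L l} →₀ ℤ)))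
  have h7 : Nonempty (Lex (ℚ × ZP {l // LowP L l})) := ⟨toLex (0, toLex 0)⟩
  obtain ⟨ψ⟩ := Order.iso_of_countable_dense (ZP {l // LowP L l}) (Lex (ℚ × ZP {l // LowP L l}))
  exact ⟨(splitF L).trans ((Prod.Lex.prodLexCongr ψ (OrderIso.refl _)).trans
    ((Prod.Lex.prodLexAssoc _ _ _).trans
      (Prod.Lex.prodLexCongr (OrderIso.refl ℚ) (splitF L).symm)))⟩

end notwf

section uncountable

variable (K : Type*) [LinearOrder K]

/-- the lower set of `ℚ × K` cut out by a real number -/
def cutL (r : ℝ) : LowerSet (Lex (ℚ × K)) where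
  carrier := {p | ((ofLex p).1 : ℝ) < r}
  lower' := by
    intro p q hqp hp
    have h1 : (ofLex q).1 ≤ (ofLex p).1 := Prod.Lex.monotone_fst _ _ hqp
    show ((ofLex q).1 : ℝ) < r
    have h2 : ((ofLex p).1 : ℝ) < r := hp
    have h3 : ((ofLex q).1 : ℝ) ≤ ((ofLex p).1 : ℝ) := by exact_mod_cast h1
    exact h3.trans_lt h2

theorem not_countable_lowerSet [Nonempty K] : ¬ Countable (LowerSet (Lex (ℚ × K))) := by
  intro h
  have hinj : Function.Injective (cutL K) := by
    intro r s hrs
    by_contra hne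
    wlog hlt : r < s generalizing r s
    · exact this hrs.symm (Ne.symm hne) (lt_of_le_of_ne (not_lt.1 hlt) (Ne.symm hne))
    obtain ⟨q, hq1, hq2⟩ := exists_rat_btwn hlt
    obtain ⟨k⟩ := ‹Nonempty K›
    have h1 : toLex (q, k) ∈ cutL K s := hq2
    rw [← hrs] at h1
    have h2 : (q : ℝ) < r := h1
    linarith
  have h1 : Countable ℝ := hinj.countable
  exact Cardinal.not_countable_real (Set.countable_univ_iff.2 h1)

end uncountable

end Pool.Agent.helper29.KS
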