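import Pool.Agent.helper29.KS.Desc
import Pool.Agent.helper29.KS.Descend
import Pool.Agent.helper29.KS.ZPow
import Pool.Agent.helper29.KS.Kleene
import Pool.Agent.helper29.KS.CrCont

/-!
# Conjugacy of Kupka-Smale diffeomorphisms of the torus is not Borel
-/

open Set Filter Topology Function
open scoped Manifold ContDiff

noncomputable section

namespace Pool.Agent.helper29.KS

section encode

theorem sto_of_equiv {α : Type*} [LinearOrder α] (e : ℕ ≃ α) : STO (fun m n => e m < e n) where
  irrefl n := lt_irrefl _
  trans _ _ _ h1 h2 := h1.trans h2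
  total m n := by
    rcases lt_trichotomy (e m) (e n) with h | h | h
    · exact Or.inl h
    · exact Or.inr (Or.inl (e.injective h))
    · exact Or.inr (Or.inr h)

theorem low_countable {α : Type*} [LinearOrder α] (e : ℕ ≃ α) :
    (Low (fun m n => e m < e n)).Countable ↔ Countable (LowerSet α) := by
  have E : Low (fun m n => e m < e n) ≃ LowerSet α :=
    { toFun := fun A => ⟨e '' A.1, by
        rintro _ b hb ⟨n, hn, rfl⟩
        rcases hb.lt_or_eq with h | h
        · refine ⟨e.symm b, ?_, e.apply_symm_apply b⟩
          exact A.2 _ _ (by simpa using h) hn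
        · exact ⟨n, hn, h.symm⟩⟩
      invFun := fun L => ⟨e ⁻¹' (L : Set α), fun m n h hn => L.lower h.le hn⟩
      left_inv := fun A => Subtype.ext (by
        show e ⁻¹' (e '' A.1) = A.1
        exact e.injective.preimage_image _)
      right_inv := fun L => LowerSet.ext (by
        show e '' (e ⁻¹' (L : Set α)) = L
        exact e.surjective.image_preimage _) }
  rw [← countable_coe_iff]
  exact E.countable_iff

/-- enumeration of the finitely supported functions -/
def enc : ℕ ≃ (List ℕ →₀ ℤ) := (nonempty_equiv_of_countable (α := ℕ) (β := List ℕ →₀ ℤ)).some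

/-- enumeration of the product -/
def encB : ℕ ≃ ℚ × (List ℕ →₀ ℤ) :=
  (nonempty_equiv_of_countable (α := ℕ) (β := ℚ × (List ℕ →₀ ℤ))).some

/-- the order on finitely supported functions given by `T` -/
def zlt (T : Tr) (f g : List ℕ →₀ ℤ) : Prop :=
  (toLex (f : LT' T →₀ ℤ) : ZP (LT' T)) < toLex (g : LT' T →₀ ℤ)

theorem zlt_iff (T : Tr) (f g : List ℕ →₀ ℤ) :
    zlt T f g ↔ ∃ i : List ℕ, (∀ j, ltT T j i → f j = g j) ∧ f i < g i := zp_lt

theorem isClopen_zlt (f g : List ℕ →₀ ℤ) : IsClopen {T : Tr | zlt T f g} := by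
  classical
  have h1 : {T : Tr | zlt T f g} =
      ⋃ i ∈ (f.support ∪ g.support).filter (fun i => f i < g i),
        ⋂ j ∈ (f.support ∪ g.support).filter (fun j => f j ≠ g j), {T | ltT T j i}ᶜ := by
    ext T
    simp only [mem_setOf_eq, zlt_iff, mem_iUnion, mem_iInter, Finset.mem_filter, mem_compl_iff]
    constructor
    · rintro ⟨i, hi, hlt⟩
      refine ⟨i, ⟨?_, hlt⟩, ?_⟩
      · rw [Finset.mem_union, Finsupp.mem_support_iff, Finsupp.mem_support_iff]
        by_contra hcon
        push Not at hcon
        rw [hcon.1, hcon.2] at hlt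
        exact lt_irrefl _ hlt
      · rintro j ⟨_, hne⟩ hj
        exact hne (hi j hj)
    · rintro ⟨i, ⟨_, hlt⟩, h⟩
      refine ⟨i, ?_, hlt⟩
      intro j hj
      by_contra hne
      refine h j ⟨?_, hne⟩ hj
      rw [Finset.mem_union, Finsupp.mem_support_iff, Finsupp.mem_support_iff]
      by_contra hcon
      push Not at hcon
      exact hne (hcon.1.trans hcon.2.symm)
  rw [h1]
  apply isClopen_biUnion_finset
  intro i _
  apply isClopen_biInter_finset
  intro j _
  exact (isClopen_ltT j i).compl

/-- first relation -/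
def relA (T : Tr) (m n : ℕ) : Prop := zlt T (enc m) (enc n)

/-- second relation -/
def relB (T : Tr) (m n : ℕ) : Prop :=
  (encB m).1 < (encB n).1 ∨ (encB m).1 = (encB n).1 ∧ zlt T (encB m).2 (encB n).2

theorem isClopen_relA (m n : ℕ) : IsClopen {T | relA T m n} := isClopen_zlt _ _

theorem isClopen_relB (m n : ℕ) : IsClopen {T | relB T m n} := by
  by_cases h1 : (encB m).1 < (encB n).1
  · have : {T | relB T m n} = univ := by
      ext T; simp [relB, h1]
    rw [this]; exact isClopen_univ
  · by_cases h2 : (encB m).1 = (encB n).1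
    · have : {T | relB T m n} = {T | zlt T (encB m).2 (encB n).2} := by
        ext T; simp [relB, h2]
      rw [this]; exact isClopen_zlt _ _
    · have : {T | relB T m n} = ∅ := by
        ext T; simp [relB, h1, h2]
      rw [this]; exact isClopen_empty

/-- first order -/
def eA (T : Tr) : ℕ ≃ ZP (LT' T) := enc.trans (toLex : (LT' T →₀ ℤ) ≃ Lex (LT' T →₀ ℤ))

/-- second order -/
def eB (T : Tr) : ℕ ≃ Lex (ℚ × ZP (LT' T)) :=
  encB.trans (((Equiv.refl ℚ).prodCongr (toLex : (LT' T →₀ ℤ) ≃ Lex (LT' T →₀ ℤ))).trans toLex)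

theorem relA_eq (T : Tr) : relA T = fun m n => eA T m < eA T n := rfl

theorem relB_eq (T : Tr) : relB T = fun m n => eB T m < eB T n := by
  funext m n
  exact propext (Prod.Lex.lt_iff (x := eB T m) (y := eB T n)).symm

theorem sto_relA (T : Tr) : STO (relA T) := by
  rw [relA_eq]; exact sto_of_equiv _

theorem sto_relB (T : Tr) : STO (relB T) := by
  rw [relB_eq]; exact sto_of_equiv _

theorem exists_sigma {T : Tr} (hT : T ∈ Branching) :
    ∃ σ : ℕ ≃ ℕ, ∀ m n, relA T m n ↔ relB T (σ m) (σ n) := by
  obtain ⟨φ⟩ := exists_iso (not_wf_of_branching hT)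
  refine ⟨(eA T).trans (φ.toEquiv.trans (eB T).symm), fun m n => ?_⟩
  rw [relA_eq, relB_eq]
  simp

theorem low_A {T : Tr} (hT : T ∉ Branching) : (Low (relA T)).Countable := by
  haveI := wf_of_not_branching hT
  rw [relA_eq, low_countable]
  exact countable_lowerSet

theorem low_B (T : Tr) : ¬ (Low (relB T)).Countable := by
  rw [relB_eq, low_countable]
  exact not_countable_lowerSet _

end encode

section continuity

variable {rel : Tr → ℕ → ℕ → Prop} (hrel : ∀ m n, IsClopen {T | rel T m n})

include hrel in
theorem continuous_lft (n : ℕ) : Continuous fun T => lft (rel T) n := by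
  classical
  unfold lft tot
  refine continuous_tsum (u := len) (fun m => ?_) summable_len (fun m T => ?_)
  · have h1 : (fun T => {k | rel T k n}.indicator len m) =
        fun T => if rel T m n then len m else 0 := by
      funext T
      simp [indicator_apply]
    rw [h1]
    apply continuous_const.if _ continuous_const
    intro T hT
    have h2 := (hrel m n).frontier_eq
    rw [h2] at hT
    exact absurd hT (notMem_empty _)
  · rw [Real.norm_of_nonneg (indicator_nonneg (fun k _ => (len_pos k).le) m)]
    exact indicator_le_self' (fun _ _ => (len_pos m).le) m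

/-- midpoints -/
def midp (r : ℕ → ℕ → Prop) (n : ℕ) : ℝ := lft r n + len n / 2

theorem abs_midp_le {r : ℕ → ℕ → Prop} (hr : STO r) (n : ℕ) : |midp r n| ≤ 2 * Real.pi := by
  have h1 := lft_nonneg (r := r) n
  have h2 := rgt_le hr n
  have h3 := len_pos n
  unfold rgt at h2
  unfold midp
  rw [abs_of_nonneg (by linarith)]
  linarith

/-- the parameter of a relation -/
def par (r : ℕ → ℕ → Prop) : PB := beta (midp r)

theorem pattern_par {r : ℕ → ℕ → Prop} (hr : STO r) : Pattern r (GG (par r)) :=
  pattern_GG hr _ (fun n => beta_apply (abs_midp_le hr) n)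

include hrel in
theorem continuous_par (h : ∀ T, STO (rel T)) : Continuous fun T => par (rel T) :=
  beta_continuous (fun T n => abs_midp_le (h T) n)
    (fun n => (continuous_lft hrel n).add continuous_const)

end continuity

/-- the model with corners of the torus -/
abbrev IT := (𝓡 1).prod (𝓡 1)

theorem ff_not_periodic (r : ℕ∞) (b : PB) {n : ℕ} (hn : 1 ≤ n) (p : Circle × Circle) :
    (ff r b)^[n] p ≠ p := by
  rw [ff_apply]
  exact no_periodic _ (by omega) p

theorem ff_ks (r : ℕ∞) (b : PB) : IsKupkaSmale IT (ff r b) where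
  hyperbolic n hn x hx := absurd hx (ff_not_periodic r b hn x)
  transversal p hp _ _ _ _ _ _ := by
    obtain ⟨n, hn, hp⟩ := hp
    exact absurd hp (ff_not_periodic r b hn p)

/-- the reduction -/
def red (rel : Tr → ℕ → ℕ → Prop) (r : ℕ∞) (T : Tr) : KSr IT (Circle × Circle) r :=
  ⟨ff r (par (rel T)), ff_ks r _⟩

theorem continuous_red {rel : Tr → ℕ → ℕ → Prop} (hrel : ∀ m n, IsClopen {T | rel T m n})
    (h : ∀ T, STO (rel T)) (r : ℕ∞) : Continuous (red rel r) := by
  rw [continuous_induced_rng]
  exact continuous_family IT Phi_smooth (fun T => ff r (par (rel T))) (fun T => par (rel T))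
    (continuous_par hrel h) (fun _ _ => rfl)

theorem red_conj (r : ℕ∞) (T : Tr) :
    (red relA r T, red relB r T) ∈ conjRel IT (Circle × Circle) r ↔ T ∈ Branching := by
  constructor
  · rintro ⟨h, hh⟩
    by_contra hT
    have h1 : (recCl (skew (gb (par (relA T))) om)).Countable ↔
        (recCl (skew (gb (par (relB T))) om)).Countable := recCl_countable_iff h hh
    rw [skew_invariant (sto_relA T) (pattern_par (sto_relA T)) (gb_exp _),
      skew_invariant (sto_relB T) (pattern_par (sto_relB T)) (gb_exp _)] at h1
    exact low_B T (h1.1 (low_A hT))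
  · intro hT
    obtain ⟨σ, hσ⟩ := exists_sigma hT
    obtain ⟨h, hh⟩ := torus_conj (sto_relA T) (sto_relB T) σ hσ (pattern_par (sto_relA T))
      (pattern_par (sto_relB T)) (gb_exp _) (gb_exp _)
    exact ⟨h, hh⟩

theorem not_borel (r : ℕ∞) :
    ¬ @MeasurableSet (KSr IT (Circle × Circle) r × KSr IT (Circle × Circle) r) (borel _)
      (conjRel IT (Circle × Circle) r) := by
  intro hE
  have hF : Continuous fun T : Tr => (red relA r T, red relB r T) :=
    (continuous_red isClopen_relA sto_relA r).prodMk (continuous_red isClopen_relB sto_relB r)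
  have h1 := hF.borel_measurable hE
  apply not_measurable_branching
  have h2 : (fun T : Tr => (red relA r T, red relB r T)) ⁻¹' conjRel IT (Circle × Circle) r =
      Branching := by
    ext T
    exact red_conj r T
  rw [h2] at h1
  exact h1

end Pool.Agent.helper29.KS
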