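import Pool.Agent.helper29.KS.Arcs
import Pool.Agent.helper29.KS.Conj

/-!
# Conjugacy of interval maps with isomorphic patterns of intervals
-/

open Set

noncomputable section

namespace Pool.Agent.helper29.KS

/-- the restriction of an increasing map to an interval with fixed endpoints -/
theorem exists_restrict {G : ℝ → ℝ} (hG : StrictMono G) (hGc : Continuous G) {a b : ℝ}
    (ha : G a = a) (hb : G b = b) :
    ∃ P : Ioo a b ≃o Ioo a b, ∀ x, ((P x : Ioo a b) : ℝ) = G x := by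
  have hmaps : ∀ x : Ioo a b, G x ∈ Ioo a b := by
    intro x
    constructor
    · have := hG x.2.1
      rwa [ha] at this
    · have := hG x.2.2
      rwa [hb] at this
  obtain ⟨f, hf⟩ : ∃ f : Ioo a b → Ioo a b, ∀ x, (f x : ℝ) = G x :=
    ⟨fun x => ⟨G x, hmaps x⟩, fun x => rfl⟩
  have hmono : StrictMono f := by
    intro x y hxy
    show (f x : ℝ) < f y
    rw [hf, hf]
    exact hG hxy
  have hsurj : Function.Surjective f := by
    intro y
    have hab : a ≤ b := (y.2.1.trans y.2.2).le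
    have h1 : (y : ℝ) ∈ Icc (G a) (G b) := by
      rw [ha, hb]; exact ⟨y.2.1.le, y.2.2.le⟩
    obtain ⟨x, hx, hxy⟩ := intermediate_value_Icc hab hGc.continuousOn h1
    have hx1 : a < x := by
      rw [← hG.lt_iff_lt, ha, hxy]; exact y.2.1
    have hx2 : x < b := by
      rw [← hG.lt_iff_lt, hb, hxy]; exact y.2.2
    exact ⟨⟨x, hx1, hx2⟩, Subtype.ext (by rw [hf]; exact hxy)⟩
  exact ⟨hmono.orderIsoOfSurjective f hsurj, fun x => hf x⟩

/-- increasing maps with the prescribed pattern -/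
structure Pattern (r : ℕ → ℕ → Prop) (G : ℝ → ℝ) : Prop where
  mono : StrictMono G
  cont : Continuous G
  fix : ∀ x ∈ Exc r, G x = x
  move : ∀ n, ∀ x ∈ Ioo (lft r n) (rgt r n), x < G x

section

variable {r r' : ℕ → ℕ → Prop} (hr : STO r) (hr' : STO r') (σ : ℕ ≃ ℕ)
  (hσ : ∀ m n, r m n ↔ r' (σ m) (σ n)) {G G' : ℝ → ℝ} (hG : Pattern r G) (hG' : Pattern r' G')

include hr

theorem lft_mem_exc (n : ℕ) : lft r n ∈ Exc r :=
  tot_mem_exc hr (fun _ _ h1 h2 => hr.trans _ _ _ h1 h2)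

theorem low_closed (n : ℕ) : ({m | r m n} ∪ {n}) ∈ Low r := by
  rintro k m h1 (h2 | h2)
  · exact Or.inl (hr.trans _ _ _ h1 h2)
  · rw [mem_singleton_iff] at h2
    rw [h2] at h1
    exact Or.inl h1

theorem rgt_mem_exc (n : ℕ) : rgt r n ∈ Exc r := by
  rw [rgt_eq hr]
  exact tot_mem_exc hr (low_closed hr n)

omit hr in
theorem left_low (hr : STO r) (x : ℝ) : {n | rgt r n ≤ x} ∈ Low r := by
  intro m n hmn hn
  have hn' : rgt r n ≤ x := hn
  show rgt r m ≤ x
  have h3 := rgt_le_lft hr hmn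
  have h4 := lft_lt_rgt (r := r) n
  linarith

theorem left_tot {A : Set ℕ} (hA : A ∈ Low r) : {n | rgt r n ≤ tot A} = A := by
  apply tot_injOn_low hr (left_low hr _) hA
  obtain ⟨h0, h1, h2⟩ := tot_mem_exc hr hA
  exact (eq_tot_of_notMem hr h0 h1 h2).symm

theorem left_lft (n : ℕ) {x : ℝ} (hx : x ∈ Ioo (lft r n) (rgt r n)) :
    {m | rgt r m ≤ x} = {m | r m n} := by
  ext m
  constructor
  · intro (h : rgt r m ≤ x)
    show r m n
    rw [← lft_lt_iff hr]
    rcases hr.total m n with h1 | h1 | h1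
    · exact (lft_lt_iff hr).2 h1
    · rw [h1] at h; exact absurd hx.2 (not_lt.2 h)
    · have h2 := rgt_le_lft hr h1
      have h3 := lft_lt_rgt (r := r) m
      have := hx.2
      linarith
  · intro (h : r m n)
    show rgt r m ≤ x
    exact (rgt_le_lft hr h).trans hx.1.le

theorem interval_unique {m n : ℕ} {x : ℝ} (h1 : x ∈ Ioo (lft r m) (rgt r m))
    (h2 : x ∈ Ioo (lft r n) (rgt r n)) : m = n := by
  rcases hr.total m n with h | h | h
  · have := rgt_le_lft hr h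
    exact absurd (h2.1.trans h1.2) (not_lt.2 this)
  · exact h
  · have := rgt_le_lft hr h
    exact absurd (h1.1.trans h2.2) (not_lt.2 this)

include hr' hσ

omit hr hr' in
theorem image_low {A : Set ℕ} (hA : A ∈ Low r) : σ '' A ∈ Low r' := by
  rintro m _ hmn ⟨n, hn, rfl⟩
  refine ⟨σ.symm m, hA _ n ?_ hn, σ.apply_symm_apply m⟩
  rw [hσ, σ.apply_symm_apply]
  exact hmn

omit hr hr' in
theorem image_lft (n : ℕ) : σ '' {m | r m n} = {k | r' k (σ n)} := by
  ext k
  constructor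
  · rintro ⟨m, hm, rfl⟩
    exact (hσ _ _).1 hm
  · intro hk
    refine ⟨σ.symm k, ?_, σ.apply_symm_apply k⟩
    show r (σ.symm k) n
    rw [hσ, σ.apply_symm_apply]
    exact hk

include hG hG'

/-- the global conjugacy -/
theorem exists_global : ∃ H : ℝ → ℝ, StrictMonoOn H (Icc 0 (2 * Real.pi)) ∧
    MapsTo H (Icc 0 (2 * Real.pi)) (Icc 0 (2 * Real.pi)) ∧
    SurjOn H (Icc 0 (2 * Real.pi)) (Icc 0 (2 * Real.pi)) ∧
    ∀ x ∈ Icc 0 (2 * Real.pi), H (G x) = G' (H x) := by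
  classical
  -- local conjugacies
  have hloc : ∀ n, ∃ C : Ioo (lft r n) (rgt r n) ≃o Ioo (lft r' (σ n)) (rgt r' (σ n)),
      ∀ x y : Ioo (lft r n) (rgt r n), (y : ℝ) = G x → (C y : ℝ) = G' (C x) := by
    intro n
    obtain ⟨P, hP⟩ := exists_restrict hG.mono hG.cont (hG.fix _ (lft_mem_exc hr n))
      (hG.fix _ (rgt_mem_exc hr n))
    obtain ⟨Q, hQ⟩ := exists_restrict hG'.mono hG'.cont (hG'.fix _ (lft_mem_exc hr' (σ n)))
      (hG'.fix _ (rgt_mem_exc hr' (σ n)))
    obtain ⟨C, hC⟩ := exists_conj_ioo (lft_lt_rgt n) (lft_lt_rgt (σ n)) P Q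
      (fun x => by
        show (x : ℝ) < P x
        rw [hP]; exact hG.move n x x.2)
      (fun x => by
        show (x : ℝ) < Q x
        rw [hQ]; exact hG'.move (σ n) x x.2)
    refine ⟨C, fun x y hxy => ?_⟩
    have h1 : y = P x := Subtype.ext (by rw [hP]; exact hxy)
    rw [h1, hC, hQ]
  choose C hC using hloc
  -- the map
  obtain ⟨H, hH1, hH2⟩ : ∃ H : ℝ → ℝ,
      (∀ n, ∀ x (hx : x ∈ Ioo (lft r n) (rgt r n)), H x = C n ⟨x, hx⟩) ∧
      (∀ x, (∀ n, x ∉ Ioo (lft r n) (rgt r n)) → H x = tot (σ '' {n | rgt r n ≤ x})) := by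
    refine ⟨fun x => if h : ∃ n, x ∈ Ioo (lft r n) (rgt r n) then
      (C h.choose ⟨x, h.choose_spec⟩ : ℝ) else tot (σ '' {n | rgt r n ≤ x}), ?_, ?_⟩
    · intro n x hx
      have h : ∃ n, x ∈ Ioo (lft r n) (rgt r n) := ⟨n, hx⟩
      have h2 : h.choose = n := interval_unique hr h.choose_spec hx
      have h3 : ∀ m (hm : x ∈ Ioo (lft r m) (rgt r m)), m = n →
          (C m ⟨x, hm⟩ : ℝ) = C n ⟨x, hx⟩ := by
        intro m hm hmn
        subst hmn
        rfl
      simp only [h, dif_pos]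
      exact h3 _ _ h2
    · intro x hx
      have h : ¬ ∃ n, x ∈ Ioo (lft r n) (rgt r n) := by
        push Not; exact hx
      simp only [h, dif_neg, not_false_iff]
  have hHin : ∀ n x, x ∈ Ioo (lft r n) (rgt r n) → H x ∈ Ioo (lft r' (σ n)) (rgt r' (σ n)) := by
    intro n x hx
    rw [hH1 n x hx]
    exact (C n ⟨x, hx⟩).2
  have hHexc : ∀ x, (∀ n, x ∉ Ioo (lft r n) (rgt r n)) → H x ∈ Exc r' := by
    intro x hx
    rw [hH2 x hx]
    exact tot_mem_exc hr' (image_low σ hσ (left_low hr x))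
  have hdich : ∀ x : ℝ, (∃ n, x ∈ Ioo (lft r n) (rgt r n)) ∨
      ∀ n, x ∉ Ioo (lft r n) (rgt r n) := by
    intro x
    by_cases h : ∃ n, x ∈ Ioo (lft r n) (rgt r n)
    · exact Or.inl h
    · push Not at h
      exact Or.inr h
  -- comparison of H with the total of the left part
  have hlow : ∀ x, tot (σ '' {n | rgt r n ≤ x}) ≤ H x := by
    intro x
    rcases hdich x with ⟨n, hn⟩ | h
    · rw [left_lft hr n hn, image_lft σ hσ]
      exact (hHin n x hn).1.le
    · rw [hH2 x h]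
  have hup : ∀ x n, x ∈ Ioo (lft r n) (rgt r n) → H x < rgt r' (σ n) :=
    fun x n hn => (hHin n x hn).2
  have hmono : StrictMonoOn H (Icc 0 (2 * Real.pi)) := by
    intro x hx y hy hxy
    rcases hdich x with ⟨n, hn⟩ | hxe
    · by_cases hyn : y ∈ Ioo (lft r n) (rgt r n)
      · rw [hH1 n x hn, hH1 n y hyn]
        exact (C n).lt_iff_lt.2 (show (⟨x, hn⟩ : Ioo (lft r n) (rgt r n)) < ⟨y, hyn⟩ from hxy)
      · have h1 : rgt r n ≤ y := by
          by_contra hcon
          exact hyn ⟨hn.1.trans hxy, not_le.1 hcon⟩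
        refine (hup x n hn).trans_le (le_trans ?_ (hlow y))
        rw [rgt_eq hr']
        apply tot_mono
        rw [← image_lft σ hσ]
        rintro k (⟨m, hm, rfl⟩ | hk)
        · refine ⟨m, ?_, rfl⟩
          have h2 := rgt_le_lft hr (show r m n from hm)
          have h3 := lft_lt_rgt (r := r) n
          show rgt r m ≤ y
          linarith
        · rw [mem_singleton_iff] at hk
          exact ⟨n, h1, hk.symm⟩
    · rw [hH2 x hxe]
      have hsub : {n | rgt r n ≤ x} ⊆ {n | rgt r n ≤ y} := fun n (hn : rgt r n ≤ x) => hn.trans hxy.le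
      rcases hdich y with ⟨m, hm⟩ | hye
      · refine lt_of_le_of_lt ?_ (hHin m y hm).1
        rw [lft, ← image_lft σ hσ, ← left_lft hr m hm]
        exact tot_mono (image_mono hsub)
      · rw [hH2 y hye]
        apply tot_lt
        refine ⟨image_mono hsub, fun hcon => ?_⟩
        have h1 : {n | rgt r n ≤ y} ⊆ {n | rgt r n ≤ x} := by
          intro n hn
          obtain ⟨m, hm, hmn⟩ := hcon ⟨n, hn, rfl⟩
          rw [← σ.injective hmn]; exact hm
        have h2 := eq_tot_of_notMem hr hx.1 hx.2 hxe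
        have h3 := eq_tot_of_notMem hr hy.1 hy.2 hye
        rw [Subset.antisymm hsub h1, ← h3] at h2
        exact hxy.ne h2
  have hmaps : MapsTo H (Icc 0 (2 * Real.pi)) (Icc 0 (2 * Real.pi)) := by
    intro x _
    rcases hdich x with ⟨n, hn⟩ | h
    · have h1 := hHin n x hn
      exact ⟨(lft_nonneg _).trans h1.1.le, h1.2.le.trans (rgt_le hr' _)⟩
    · obtain ⟨h1, h2, _⟩ := hHexc x h
      exact ⟨h1, h2⟩
  have hsurj : SurjOn H (Icc 0 (2 * Real.pi)) (Icc 0 (2 * Real.pi)) := by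
    intro y hy
    by_cases h : ∃ k, y ∈ Ioo (lft r' k) (rgt r' k)
    · obtain ⟨k, hk⟩ := h
      obtain ⟨n, rfl⟩ := σ.surjective k
      obtain ⟨x, hx⟩ := (C n).surjective ⟨y, hk⟩
      refine ⟨x, ⟨(lft_nonneg _).trans x.2.1.le, x.2.2.le.trans (rgt_le hr _)⟩, ?_⟩
      rw [hH1 n x x.2, hx]
    · push Not at h
      have h1 := eq_tot_of_notMem hr' hy.1 hy.2 h
      obtain ⟨B, hB⟩ : ∃ B : Set ℕ, B = {k | rgt r' k ≤ y} := ⟨_, rfl⟩
      have hBl : B ∈ Low r' := by rw [hB]; exact left_low hr' y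
      obtain ⟨A, hA⟩ : ∃ A : Set ℕ, A = σ ⁻¹' B := ⟨_, rfl⟩
      have hAl : A ∈ Low r := by
        intro m n hmn hn
        rw [hA] at hn ⊢
        exact hBl _ _ ((hσ _ _).1 hmn) hn
      obtain ⟨h2, h3, h4⟩ := tot_mem_exc hr hAl
      refine ⟨tot A, ⟨h2, h3⟩, ?_⟩
      rw [hH2 _ h4, left_tot hr hAl, hA, image_preimage_eq _ σ.surjective, hB]
      exact h1.symm
  refine ⟨H, hmono, hmaps, hsurj, ?_⟩
  intro x hx
  rcases hdich x with ⟨n, hn⟩ | h
  · have h1 : G x ∈ Ioo (lft r n) (rgt r n) := by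
      constructor
      · rw [← hG.fix _ (lft_mem_exc hr n)]; exact hG.mono hn.1
      · have := hG.mono hn.2
        rwa [hG.fix _ (rgt_mem_exc hr n)] at this
    rw [hH1 n _ h1, hH1 n _ hn]
    exact hC n ⟨x, hn⟩ ⟨G x, h1⟩ rfl
  · rw [hG.fix x ⟨hx.1, hx.2, h⟩, hG'.fix _ (hHexc x h)]

end

end Pool.Agent.helper29.KS
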