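import Mathlib

/-!
# Kupka-Smale diffeomorphisms: definitions

`M` is a smooth manifold without boundary, modelled on `E` via `I`, and `r ∈ {1, 2, ..., ∞}`.
-/

open Set Filter Topology Function
open scoped Manifold ContDiff TensorProduct

namespace Pool.Agent.helper29.KS

section defs

variable {E : Type*} [NormedAddCommGroup E] [NormedSpace ℝ E] {H : Type*} [TopologicalSpace H]
  (I : ModelWithCorners ℝ E H) {M : Type*} [TopologicalSpace M] [ChartedSpace H M]

/-- The expression `ψ ∘ f ∘ φ⁻¹` of a map `f : M → M` in the charts `φ = e` and `ψ = e'`. -/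
noncomputable def inCharts (e e' : OpenPartialHomeomorph M H) (f : M → M) : E → E :=
  e'.extend I ∘ f ∘ (e.extend I).symm

variable (M) in
/-- The `C^r` topology on `Diff^r(M)`, `1 ≤ r ≤ ∞`, for `M` compact. It is generated by the sets
of all `g` with `g(K) ⊆ V` and `‖D^k(ψ g φ⁻¹)(x) - D^k(ψ f φ⁻¹)(x)‖ < ε` for all `x ∈ φ(K)` and
`k ≤ m`, where `(φ, U)` and `(ψ, V)` are smooth charts, `K ⊆ U` is compact, `f ∈ Diff^r(M)`
satisfies `f(K) ⊆ V`, `m ≤ r` is finite and `ε > 0`. -/
abbrev crTopology (r : ℕ∞) : TopologicalSpace (Diffeomorph I I M M (r : WithTop ℕ∞)) :=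
  TopologicalSpace.generateFrom
    {S | ∃ e ∈ IsManifold.maximalAtlas I ∞ M, ∃ e' ∈ IsManifold.maximalAtlas I ∞ M,
      ∃ K : Set M, IsCompact K ∧ K ⊆ e.source ∧
      ∃ f : Diffeomorph I I M M (r : WithTop ℕ∞), MapsTo f K e'.source ∧
      ∃ m : ℕ, (m : ℕ∞) ≤ r ∧ ∃ ε : ℝ, 0 < ε ∧
      S = {g : Diffeomorph I I M M (r : WithTop ℕ∞) | ∀ x ∈ K, g x ∈ e'.source ∧ ∀ k ≤ m,
        ‖iteratedFDeriv ℝ k (inCharts I e e' g) (e.extend I x) -
          iteratedFDeriv ℝ k (inCharts I e e' f) (e.extend I x)‖ < ε}}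

/-- A linear map is hyperbolic if it has no complex eigenvalue of modulus one. -/
def IsHyperbolicLinear (A : E →L[ℝ] E) : Prop :=
  ∀ z : ℂ, Module.End.HasEigenvalue ((A : E →ₗ[ℝ] E).baseChange ℂ) z → ‖z‖ ≠ 1

/-- The set of points asymptotic to the point `p`: the distance between `f^n(x)` and `f^n(p)`
tends to `0`, i.e. the pairs `(f^n(p), f^n(x))` tend to the diagonal. For `p` in a hyperbolic
periodic orbit these sets make up the stable manifold of the orbit. -/
def stableSet (f : M → M) (p : M) : Set M :=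
  {x | Tendsto (fun n : ℕ => (f^[n] p, f^[n] x)) atTop (𝓝ˢ (diagonal M))}

variable [IsManifold I 1 M]

/-- The tangent vectors `v` at `x` contracted by the forward iterates of the derivative of `f`:
the iterates of `(x, v)` under the tangent map tend to the zero section of the tangent bundle.
For `x` in the stable manifold of a hyperbolic periodic orbit, this is the tangent space at `x`
of the stable manifold. -/
def stableDir (f : M → M) (x : M) : Set (TangentSpace I x) :=
  {v | Tendsto (fun n : ℕ => (tangentMap I I f)^[n] ⟨x, v⟩) atTop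
    (𝓝ˢ (range (fun y : M => (⟨y, 0⟩ : TangentBundle I M))))}

/-- Kupka-Smale diffeomorphisms: all periodic orbits are hyperbolic, and the stable manifold of
any periodic orbit is transverse to the unstable manifold of any periodic orbit. Unstable
manifolds of `f` are the stable manifolds of `f⁻¹`. -/
structure IsKupkaSmale {r : ℕ∞} (f : Diffeomorph I I M M (r : WithTop ℕ∞)) : Prop where
  hyperbolic : ∀ n : ℕ, 1 ≤ n → ∀ x : M, f^[n] x = x →
    IsHyperbolicLinear (E := E) (mfderiv I I f^[n] x)
  transversal : ∀ p ∈ periodicPts f, ∀ q ∈ periodicPts f, ∀ x : M,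
    x ∈ stableSet f p → x ∈ stableSet f.symm q →
      ∀ v : TangentSpace I x, ∃ v₁ ∈ stableDir I f x, ∃ v₂ ∈ stableDir I f.symm x, v = v₁ + v₂

variable (M) in
/-- The set `KS^r(M)` of Kupka-Smale `C^r` diffeomorphisms. -/
def KSr (r : ℕ∞) : Type _ := {f : Diffeomorph I I M M (r : WithTop ℕ∞) // IsKupkaSmale I f}

/-- `KS^r(M)` carries the subspace topology of the `C^r` topology. -/
instance (r : ℕ∞) : TopologicalSpace (KSr I M r) :=
  TopologicalSpace.induced Subtype.val (crTopology I M r)

variable (M) in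
/-- Topological conjugacy on `KS^r(M)`, as a subset of `KS^r(M) × KS^r(M)`. -/
def conjRel (r : ℕ∞) : Set (KSr I M r × KSr I M r) :=
  {p | ∃ h : M ≃ₜ M, ∀ x, h (p.1.1 x) = p.2.1 (h x)}

end defs

end Pool.Agent.helper29.KS
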