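import Pool.Agent.helper29.KS.Global

/-!
# A smooth family of circle diffeomorphisms with prescribed fixed points
-/

open Set Filter Topology Function
open scoped ContDiff BoundedContinuousFunction

noncomputable section

namespace Pool.Agent.helper29.KS

/-- a smooth periodic bump, positive exactly on `(-len n / 2, len n / 2) + 2πℤ` -/
def psi (n : ℕ) (t : ℝ) : ℝ := expNegInvGlue (Real.cos t - Real.cos (len n / 2))

theorem psi_contDiff (n : ℕ) : ContDiff ℝ ∞ (psi n) :=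
  expNegInvGlue.contDiff.comp (Real.contDiff_cos.sub contDiff_const)

theorem psi_periodic (n : ℕ) : Periodic (psi n) (2 * Real.pi) := by
  intro t
  simp [psi]

theorem psi_nonneg (n : ℕ) (t : ℝ) : 0 ≤ psi n t := expNegInvGlue.nonneg _

theorem psi_bdd (n k : ℕ) : ∃ C : ℝ, ∀ t, ‖iteratedFDeriv ℝ k (psi n) t‖ ≤ C := by
  have h1 : Periodic (iteratedFDeriv ℝ k (psi n)) (2 * Real.pi) := by
    intro t
    rw [← iteratedFDeriv_comp_add_right]
    congr 1
    funext s
    exact psi_periodic n s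
  have h2 := h1.isBounded_of_continuous Real.two_pi_pos.ne'
    ((psi_contDiff n).continuous_iteratedFDeriv (by exact_mod_cast le_top))
  obtain ⟨C, hC⟩ := h2.exists_norm_le
  exact ⟨C, fun t => hC _ ⟨t, rfl⟩⟩

/-- derivative bounds -/
def cst (n k : ℕ) : ℝ := (psi_bdd n k).choose

theorem le_cst (n k : ℕ) (t : ℝ) : ‖iteratedFDeriv ℝ k (psi n) t‖ ≤ cst n k :=
  (psi_bdd n k).choose_spec t

theorem cst_nonneg (n k : ℕ) : 0 ≤ cst n k := (norm_nonneg _).trans (le_cst n k 0)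

/-- weights -/
def wgt (n : ℕ) : ℝ := 1 + ∑ j ∈ Finset.range (n + 2), (1 + 2 ^ n) ^ j * cst n j

theorem wgt_pos (n : ℕ) : 0 < wgt n := by
  have : 0 ≤ ∑ j ∈ Finset.range (n + 2), (1 + (2 : ℝ) ^ n) ^ j * cst n j :=
    Finset.sum_nonneg (fun j _ => mul_nonneg (by positivity) (cst_nonneg n j))
  unfold wgt
  linarith

/-- the size of the `n`-th bump -/
def eps (n : ℕ) : ℝ := (1 / 4) * (1 / 2) ^ n / wgt n

theorem eps_pos (n : ℕ) : 0 < eps n := div_pos (by positivity) (wgt_pos n)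

theorem eps_mul_le {n j : ℕ} (h : j < n + 2) :
    eps n * ((1 + 2 ^ n) ^ j * cst n j) ≤ (1 / 4) * (1 / 2) ^ n := by
  have h1 : (1 + (2 : ℝ) ^ n) ^ j * cst n j ≤ wgt n := by
    have := Finset.single_le_sum (f := fun j => (1 + (2 : ℝ) ^ n) ^ j * cst n j)
      (fun j _ => mul_nonneg (by positivity) (cst_nonneg n j)) (Finset.mem_range.2 h)
    unfold wgt
    linarith
  calc eps n * ((1 + 2 ^ n) ^ j * cst n j) ≤ eps n * wgt n :=
        mul_le_mul_of_nonneg_left h1 (eps_pos n).le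
    _ = (1 / 4) * (1 / 2) ^ n := by
        unfold eps
        rw [div_mul_cancel₀ _ (wgt_pos n).ne']

theorem summable_eps (k : ℕ) : Summable fun n => eps n * ((1 + 2 ^ n) ^ k * cst n k) := by
  refine Summable.of_norm_bounded_eventually_nat (g := fun n => (1 / 4) * (1 / 2) ^ n)
    (summable_geometric_two.mul_left _) ?_
  filter_upwards [eventually_ge_atTop k] with n hn
  rw [Real.norm_of_nonneg (mul_nonneg (eps_pos n).le (mul_nonneg (by positivity) (cst_nonneg n k)))]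
  exact eps_mul_le (by omega)

/-- the parameter space -/
abbrev PB : Type := ℕ →ᵇ ℝ

/-- the `n`-th linear form -/
def Lf (n : ℕ) : PB × ℝ →L[ℝ] ℝ :=
  ContinuousLinearMap.snd ℝ PB ℝ -
    (2 ^ n : ℝ) • (BoundedContinuousFunction.evalCLM ℝ n).comp (ContinuousLinearMap.fst ℝ PB ℝ)

theorem Lf_apply (n : ℕ) (b : PB) (x : ℝ) : Lf n (b, x) = x - 2 ^ n * b n := rfl

theorem norm_Lf_le (n : ℕ) : ‖Lf n‖ ≤ 1 + 2 ^ n := by
  refine ContinuousLinearMap.opNorm_le_bound _ (by positivity) ?_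
  rintro ⟨b, x⟩
  rw [Lf_apply]
  have h1 : |x| ≤ ‖((b, x) : PB × ℝ)‖ := norm_snd_le (b, x)
  have h2 : |b n| ≤ ‖((b, x) : PB × ℝ)‖ := (b.norm_coe_le_norm n).trans (norm_fst_le (b, x))
  calc ‖x - 2 ^ n * b n‖ ≤ ‖x‖ + ‖2 ^ n * b n‖ := norm_sub_le _ _
    _ = |x| + 2 ^ n * |b n| := by
        rw [norm_mul, Real.norm_eq_abs, Real.norm_eq_abs, Real.norm_eq_abs, abs_of_pos
          (by positivity : (0 : ℝ) < 2 ^ n)]
    _ ≤ ‖((b, x) : PB × ℝ)‖ + 2 ^ n * ‖((b, x) : PB × ℝ)‖ := by gcongr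
    _ = (1 + 2 ^ n) * ‖((b, x) : PB × ℝ)‖ := by ring

/-- the displacement -/
def UU (p : PB × ℝ) : ℝ := ∑' n, eps n * psi n (Lf n p)

theorem norm_iter_comp {E : Type*} [NormedAddCommGroup E] [NormedSpace ℝ E] {f : ℝ → ℝ}
    (hf : ContDiff ℝ ∞ f) (L : E →L[ℝ] ℝ) {c A D : ℝ} (hc : 0 ≤ c) (hL : ‖L‖ ≤ A) (k : ℕ) (p : E)
    (hD : ‖iteratedFDeriv ℝ k f (L p)‖ ≤ D) :
    ‖iteratedFDeriv ℝ k (fun p => c * f (L p)) p‖ ≤ c * (A ^ k * D) := by
  have hA : 0 ≤ A := (norm_nonneg _).trans hL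
  have h0 : (fun p => c * f (L p)) = c • (f ∘ L) := by
    funext q; rfl
  rw [h0, iteratedFDeriv_const_smul_apply ((hf.comp L.contDiff).contDiffAt.of_le
      (by exact_mod_cast le_top)), norm_smul, Real.norm_of_nonneg hc]
  apply mul_le_mul_of_nonneg_left _ hc
  rw [L.iteratedFDeriv_comp_right hf p (by exact_mod_cast le_top)]
  refine (ContinuousMultilinearMap.norm_compContinuousLinearMap_le _ _).trans ?_
  rw [Finset.prod_const, Finset.card_univ, Fintype.card_fin, mul_comm]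
  exact mul_le_mul (pow_le_pow_left₀ (norm_nonneg _) hL k) hD (norm_nonneg _) (by positivity)

theorem UU_contDiff : ContDiff ℝ ∞ UU := by
  refine contDiff_tsum (N := ⊤) (v := fun k n => eps n * ((1 + 2 ^ n) ^ k * cst n k)) ?_
    (fun k _ => summable_eps k) ?_
  · intro n
    exact contDiff_const.mul ((psi_contDiff n).comp (Lf n).contDiff)
  · intro k n p hk
    exact norm_iter_comp (psi_contDiff n) (Lf n) (eps_pos n).le (norm_Lf_le n) k p (le_cst n k _)

theorem psi_lip (n : ℕ) (s t : ℝ) : |psi n s - psi n t| ≤ cst n 1 * |s - t| := by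
  have h := Convex.norm_image_sub_le_of_norm_fderiv_le (𝕜 := ℝ) (f := psi n) (C := cst n 1)
    (s := univ) (x := t) (y := s) (fun x _ => ((psi_contDiff n).differentiable (by simp)).differentiableAt)
    (fun x _ => by
      rw [← norm_iteratedFDeriv_one]
      exact le_cst n 1 x) convex_univ (mem_univ _) (mem_univ _)
  exact h

end Pool.Agent.helper29.KS
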