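import Pool.Agent.helper29.KS.Smooth

/-!
# The family has the prescribed pattern
-/

open Set Filter Topology Function
open scoped ContDiff BoundedContinuousFunction

noncomputable section

namespace Pool.Agent.helper29.KS

theorem psi_le (n : ℕ) (t : ℝ) : psi n t ≤ cst n 0 := by
  have h := le_cst n 0 t
  rw [norm_iteratedFDeriv_zero, Real.norm_of_nonneg (psi_nonneg n t)] at h
  exact h

theorem eps_mul_psi_le (n : ℕ) (t : ℝ) : eps n * psi n t ≤ (1 / 4) * (1 / 2) ^ n := by
  have h1 := eps_mul_le (n := n) (j := 0) (by omega)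
  rw [pow_zero, one_mul] at h1
  exact (mul_le_mul_of_nonneg_left (psi_le n t) (eps_pos n).le).trans h1

theorem summable_psi (t : ℕ → ℝ) : Summable fun n => eps n * psi n (t n) :=
  Summable.of_nonneg_of_le (fun n => mul_nonneg (eps_pos n).le (psi_nonneg n _))
    (fun n => eps_mul_psi_le n (t n)) (summable_geometric_two.mul_left _)

theorem UU_nonneg (p : PB × ℝ) : 0 ≤ UU p :=
  tsum_nonneg (fun n => mul_nonneg (eps_pos n).le (psi_nonneg n _))

theorem UU_periodic (b : PB) (x : ℝ) : UU (b, x + 2 * Real.pi) = UU (b, x) := by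
  unfold UU
  congr 1
  funext n
  rw [Lf_apply, Lf_apply, ← psi_periodic n (x - 2 ^ n * b n)]
  congr 2
  ring

theorem eps_mul_lip (n : ℕ) (s t : ℝ) :
    |eps n * psi n s - eps n * psi n t| ≤ (1 / 4) * (1 / 2) ^ n * |s - t| := by
  rw [← mul_sub, abs_mul, abs_of_pos (eps_pos n)]
  have h1 := eps_mul_le (n := n) (j := 1) (by omega)
  rw [pow_one] at h1
  have h2 : cst n 1 ≤ (1 + 2 ^ n) * cst n 1 := by
    have := cst_nonneg n 1
    have h3 : (0 : ℝ) < 2 ^ n := by positivity
    nlinarith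
  have h3 := psi_lip n s t
  calc eps n * |psi n s - psi n t| ≤ eps n * (cst n 1 * |s - t|) :=
        mul_le_mul_of_nonneg_left h3 (eps_pos n).le
    _ = (eps n * cst n 1) * |s - t| := by ring
    _ ≤ (eps n * ((1 + 2 ^ n) * cst n 1)) * |s - t| := by
        apply mul_le_mul_of_nonneg_right _ (abs_nonneg _)
        exact mul_le_mul_of_nonneg_left h2 (eps_pos n).le
    _ ≤ (1 / 4) * (1 / 2) ^ n * |s - t| := mul_le_mul_of_nonneg_right h1 (abs_nonneg _)

theorem UU_lip (b : PB) (x y : ℝ) : |UU (b, x) - UU (b, y)| ≤ 1 / 2 * |x - y| := by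
  unfold UU
  rw [← (summable_psi _).tsum_sub (summable_psi _)]
  have h1 : HasSum (fun n : ℕ => (1 / 4 : ℝ) * (1 / 2) ^ n * |x - y|) (1 / 2 * |x - y|) := by
    have := (hasSum_geometric_two.mul_left (1 / 4 : ℝ)).mul_right |x - y|
    norm_num at this ⊢
    exact this
  have h2 := tsum_of_norm_bounded (f := fun n => eps n * psi n (Lf n (b, x)) -
    eps n * psi n (Lf n (b, y))) h1 (fun n => by
      have h3 := eps_mul_lip n (Lf n (b, x)) (Lf n (b, y))
      have h4 : Lf n (b, x) - Lf n (b, y) = x - y := by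
        rw [Lf_apply, Lf_apply]; ring
      rw [h4] at h3
      exact h3)
  exact h2

/-- lifts of circle diffeomorphisms -/
def GG (b : PB) (x : ℝ) : ℝ := x + UU (b, x)

theorem GG_contDiff (b : PB) : ContDiff ℝ ∞ (GG b) :=
  contDiff_id.add (UU_contDiff.comp (contDiff_const.prodMk contDiff_id))

theorem GG_expand (b : PB) {x y : ℝ} (h : x ≤ y) : 1 / 2 * (y - x) ≤ GG b y - GG b x := by
  have h1 := UU_lip b x y
  rw [abs_le, abs_of_nonpos (by linarith : x - y ≤ 0)] at h1
  unfold GG
  linarith [h1.2]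

theorem GG_strictMono (b : PB) : StrictMono (GG b) := by
  intro x y h
  have := GG_expand b h.le
  linarith

theorem GG_add (b : PB) (x : ℝ) : GG b (x + 2 * Real.pi) = GG b x + 2 * Real.pi := by
  unfold GG
  rw [UU_periodic]
  ring

theorem GG_deriv_pos (b : PB) (x : ℝ) : 0 < deriv (GG b) x := by
  have h1 : HasDerivAt (GG b) (deriv (GG b) x) x :=
    ((GG_contDiff b).differentiable (by simp)).differentiableAt.hasDerivAt
  have h2 := h1.tendsto_slope_zero_right
  have h3 : (1 / 2 : ℝ) ≤ deriv (GG b) x := by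
    refine ge_of_tendsto h2 ?_
    filter_upwards [self_mem_nhdsWithin] with t ht
    have ht' : 0 < t := ht
    have h4 := GG_expand b (show x ≤ x + t by linarith)
    rw [smul_eq_mul, ← div_eq_inv_mul, le_div_iff₀ ht']
    linarith
  linarith

theorem GG_surj (b : PB) : Surjective (GG b) := by
  have hc := (GG_contDiff b).continuous
  apply hc.surjective
  · apply tendsto_atTop_mono' atTop (f₁ := fun x => GG b 0 + 1 / 2 * x)
    · filter_upwards [eventually_ge_atTop 0] with x hx
      have := GG_expand b hx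
      linarith
    · exact tendsto_atTop_add_const_left _ _ (tendsto_id.const_mul_atTop (by norm_num))
  · apply tendsto_atBot_mono' atBot (f₁ := fun x => GG b 0 + 1 / 2 * x)
    · filter_upwards [eventually_le_atBot 0] with x hx
      have := GG_expand b hx
      linarith
    · exact tendsto_atBot_add_const_left _ _ (tendsto_id.const_mul_atBot (by norm_num))

/-- `GG b` as a homeomorphism -/
def GH (b : PB) : ℝ ≃ₜ ℝ :=
  ((GG_strictMono b).orderIsoOfSurjective (GG b) (GG_surj b)).toHomeomorph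

theorem GH_apply (b : PB) (x : ℝ) : GH b x = GG b x := rfl

theorem GH_symm_contDiff (b : PB) : ContDiff ℝ ∞ (GH b).symm :=
  (GH b).contDiff_symm_deriv (f' := deriv (GG b)) (fun x => (GG_deriv_pos b x).ne')
    (fun _ => ((GG_contDiff b).differentiable (by simp)).differentiableAt.hasDerivAt)
    (GG_contDiff b)

theorem GH_symm_add (b : PB) (x : ℝ) : (GH b).symm (x + 2 * Real.pi) = (GH b).symm x + 2 * Real.pi := by
  rw [Homeomorph.symm_apply_eq, GH_apply, GG_add, ← GH_apply, Homeomorph.apply_symm_apply]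

section pattern

variable {r : ℕ → ℕ → Prop} (hr : STO r)

theorem len_le_pi (n : ℕ) : len n ≤ Real.pi := by
  have h1 : ((1 : ℝ) / 2) ^ (n + 1) ≤ 1 / 2 := by
    rw [pow_succ]
    have : ((1 : ℝ) / 2) ^ n ≤ 1 := pow_le_one₀ (by norm_num) (by norm_num)
    linarith
  have h2 := Real.pi_pos
  unfold len
  nlinarith

include hr

theorem psi_pos_of_mem {n : ℕ} {x : ℝ} (hx : x ∈ Ioo (lft r n) (rgt r n)) :
    0 < psi n (x - (lft r n + len n / 2)) := by
  apply expNegInvGlue.pos_of_pos
  have h1 := len_le_pi n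
  have h2 := len_pos n
  have h3 := Real.pi_pos
  obtain ⟨hx1, hx2⟩ := hx
  unfold rgt at hx2
  rw [sub_pos, ← Real.cos_abs (x - _)]
  apply Real.cos_lt_cos_of_nonneg_of_le_pi (abs_nonneg _) (by linarith)
  rw [abs_lt]
  constructor <;> linarith

theorem psi_zero_of_notMem {n : ℕ} {x : ℝ} (hx0 : 0 ≤ x) (hx1 : x ≤ 2 * Real.pi)
    (hx : x ∉ Ioo (lft r n) (rgt r n)) : psi n (x - (lft r n + len n / 2)) = 0 := by
  apply expNegInvGlue.zero_of_nonpos
  have h1 := len_le_pi n
  have h2 := len_pos n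
  have h3 := Real.pi_pos
  have h4 := lft_nonneg (r := r) n
  have h5 := rgt_le hr n
  unfold rgt at h5
  rw [sub_nonpos, ← Real.cos_abs (x - _)]
  have h6 : len n / 2 ≤ |x - (lft r n + len n / 2)| := by
    rw [mem_Ioo, not_and_or, not_lt, not_lt] at hx
    rcases hx with h | h
    · rw [le_abs]; right; linarith
    · unfold rgt at h
      rw [le_abs]; left; linarith
  have h7 : |x - (lft r n + len n / 2)| ≤ 2 * Real.pi - len n / 2 := by
    rw [abs_le]
    constructor <;> linarith
  rcases le_total |x - (lft r n + len n / 2)| Real.pi with h | h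
  · exact Real.cos_le_cos_of_nonneg_of_le_pi (by linarith) h h6
  · rw [← Real.cos_two_pi_sub]
    exact Real.cos_le_cos_of_nonneg_of_le_pi (by linarith) (by linarith) (by linarith)

theorem UU_zero (b : PB) (hb : ∀ n, 2 ^ n * b n = lft r n + len n / 2) {x : ℝ} (hx : x ∈ Exc r) :
    UU (b, x) = 0 := by
  have h0 := hx.1
  have h1 := hx.2.1
  have h2 := hx.2.2
  have h3 : ∀ n, eps n * psi n (Lf n (b, x)) = 0 := by
    intro n
    rw [Lf_apply, hb, psi_zero_of_notMem hr h0 h1 (h2 n), mul_zero]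
  have h4 : UU (b, x) = ∑' n, eps n * psi n (Lf n (b, x)) := rfl
  rw [h4, tsum_congr h3, tsum_zero]

theorem UU_pos (b : PB) (hb : ∀ n, 2 ^ n * b n = lft r n + len n / 2) {n : ℕ} {x : ℝ}
    (hx : x ∈ Ioo (lft r n) (rgt r n)) : 0 < UU (b, x) := by
  have h2 : 0 < eps n * psi n (Lf n (b, x)) := by
    rw [Lf_apply, hb]
    exact mul_pos (eps_pos n) (psi_pos_of_mem hr hx)
  have h4 : UU (b, x) = ∑' n, eps n * psi n (Lf n (b, x)) := rfl
  rw [h4]
  exact h2.trans_le ((summable_psi fun n => Lf n (b, x)).le_tsum n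
    (fun m _ => mul_nonneg (eps_pos m).le (psi_nonneg m _)))

theorem pattern_GG (b : PB) (hb : ∀ n, 2 ^ n * b n = lft r n + len n / 2) :
    Pattern r (GG b) := by
  refine ⟨GG_strictMono b, (GG_contDiff b).continuous, ?_, ?_⟩
  · intro x hx
    rw [GG, UU_zero hr b hb hx, add_zero]
  · intro n x hx
    rw [GG]
    linarith [UU_pos hr b hb hx]

end pattern

/-- the coordinate vectors -/
def bv (n : ℕ) : PB :=
  BoundedContinuousFunction.ofNormedAddCommGroupDiscrete (Pi.single n 1) 1 (fun m => by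
    by_cases h : m = n
    · subst h; simp
    · simp [h])

theorem bv_apply (n m : ℕ) : bv n m = if m = n then 1 else 0 := by
  by_cases h : m = n
  · subst h; simp [bv]
  · simp [bv, h]

theorem norm_bv_le (n : ℕ) : ‖bv n‖ ≤ 1 := by
  rw [BoundedContinuousFunction.norm_le zero_le_one]
  intro m
  rw [bv_apply]
  split_ifs <;> simp

/-- the parameter with given midpoints -/
def beta (m : ℕ → ℝ) : PB := ∑' n, ((1 / 2) ^ n * m n) • bv n

theorem norm_term_le {m : ℕ → ℝ} (hm : ∀ n, |m n| ≤ 2 * Real.pi) (n : ℕ) :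
    ‖((1 / 2 : ℝ) ^ n * m n) • bv n‖ ≤ (1 / 2) ^ n * (2 * Real.pi) := by
  rw [norm_smul, norm_mul, Real.norm_of_nonneg (by positivity : (0 : ℝ) ≤ (1 / 2) ^ n),
    Real.norm_eq_abs]
  calc (1 / 2 : ℝ) ^ n * |m n| * ‖bv n‖ ≤ (1 / 2 : ℝ) ^ n * |m n| * 1 :=
        mul_le_mul_of_nonneg_left (norm_bv_le n) (by positivity)
    _ ≤ (1 / 2) ^ n * (2 * Real.pi) := by
        rw [mul_one]
        exact mul_le_mul_of_nonneg_left (hm n) (by positivity)

theorem summable_geo : Summable fun n : ℕ => (1 / 2 : ℝ) ^ n * (2 * Real.pi) :=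
  summable_geometric_two.mul_right _

theorem beta_apply {m : ℕ → ℝ} (hm : ∀ n, |m n| ≤ 2 * Real.pi) (k : ℕ) :
    2 ^ k * beta m k = m k := by
  have hs : Summable fun n => ((1 / 2 : ℝ) ^ n * m n) • bv n :=
    Summable.of_norm_bounded summable_geo (norm_term_le hm)
  have h1 : beta m k = (BoundedContinuousFunction.evalCLM ℝ k) (beta m) := rfl
  rw [h1, beta, ContinuousLinearMap.map_tsum _ hs, tsum_eq_single k]
  · show 2 ^ k * ((1 / 2) ^ k * m k * bv k k) = m k
    rw [bv_apply, if_pos rfl, mul_one, ← mul_assoc, ← mul_pow]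
    norm_num
  · intro n hn
    show (1 / 2) ^ n * m n * bv n k = 0
    rw [bv_apply, if_neg hn.symm, mul_zero]

theorem beta_continuous {X : Type*} [TopologicalSpace X] {m : X → ℕ → ℝ}
    (hm : ∀ x n, |m x n| ≤ 2 * Real.pi) (hc : ∀ n, Continuous fun x => m x n) :
    Continuous fun x => beta (m x) := by
  unfold beta
  refine continuous_tsum (fun n => ?_) summable_geo (fun n x => norm_term_le (hm x) n)
  exact (continuous_const.mul (hc n)).smul continuous_const

end Pool.Agent.helper29.KS
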