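import Mathlib

/-!
# The set of trees with an infinite branch is not Borel
-/

open MeasureTheory Filter Topology

namespace Pool.Agent.helper29.KS

/-- sets of finite sequences, as points of a Cantor space -/
abbrev Tr : Type := List ℕ → Bool

/-- the first `n` terms of an infinite sequence -/
def pre (y : ℕ → ℕ) (n : ℕ) : List ℕ := List.ofFn (fun i : Fin n => y i)

@[simp] theorem length_pre (y : ℕ → ℕ) (n : ℕ) : (pre y n).length = n := by simp [pre]

theorem pre_eq_iff {y z : ℕ → ℕ} {n : ℕ} : pre y n = pre z n ↔ ∀ i < n, y i = z i := by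
  rw [pre, pre, List.ofFn_inj]
  constructor
  · intro h i hi
    exact congrFun h ⟨i, hi⟩
  · intro h
    funext i
    exact h i i.2

/-- trees with an infinite branch -/
def Branching : Set Tr := {T | ∃ y : ℕ → ℕ, ∀ n, T (pre y n) = true}

section diag

variable (φ : (ℕ → ℕ) → Tr)

open Classical in
/-- the diagonal tree -/
noncomputable def diagT : List ℕ → Bool :=
  WellFounded.fix (InvImage.wf (fun s : List ℕ => Encodable.encode s) Nat.lt_wfRel.wf)
    (fun s ih => decide (∃ y : ℕ → ℕ, pre y s.length = s ∧
      ∀ t : List ℕ, ∀ ht : Encodable.encode t < s.length,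
        φ y t = ih t (lt_of_lt_of_le ht (Encodable.length_le_encode s))))

theorem diagT_iff (s : List ℕ) : diagT φ s = true ↔ ∃ y : ℕ → ℕ, pre y s.length = s ∧
    ∀ t : List ℕ, Encodable.encode t < s.length → φ y t = diagT φ t := by
  classical
  rw [diagT, WellFounded.fix_eq, decide_eq_true_iff]

theorem not_range_compl (hφ : Continuous φ) : Set.range φ ≠ Branchingᶜ := by
  intro hr
  have key : diagT φ ∈ Branching ↔ diagT φ ∈ Set.range φ := by
    constructor
    · rintro ⟨y, hy⟩
      have h1 : ∀ n, ∃ z : ℕ → ℕ, (∀ i < n, z i = y i) ∧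
          ∀ t : List ℕ, Encodable.encode t < n → φ z t = diagT φ t := by
        intro n
        obtain ⟨z, hz1, hz2⟩ := (diagT_iff φ _).1 (hy n)
        rw [length_pre] at hz1 hz2
        exact ⟨z, pre_eq_iff.1 hz1, hz2⟩
      choose z hz1 hz2 using h1
      have h2 : Tendsto z atTop (𝓝 y) := by
        rw [tendsto_pi_nhds]
        intro i
        apply tendsto_const_nhds.congr'
        filter_upwards [eventually_gt_atTop i] with n hn
        exact (hz1 n i hn).symm
      have h3 : Tendsto (fun n => φ (z n)) atTop (𝓝 (φ y)) := (hφ.tendsto y).comp h2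
      have h4 : Tendsto (fun n => φ (z n)) atTop (𝓝 (diagT φ)) := by
        rw [tendsto_pi_nhds]
        intro t
        apply tendsto_const_nhds.congr'
        filter_upwards [eventually_gt_atTop (Encodable.encode t)] with n hn
        exact (hz2 n t hn).symm
      exact ⟨y, tendsto_nhds_unique h3 h4⟩
    · rintro ⟨y, hy⟩
      refine ⟨y, fun n => (diagT_iff φ _).2 ⟨y, ?_, ?_⟩⟩
      · rw [length_pre]
      · intro t _
        rw [hy]
  rw [hr] at key
  by_cases h : diagT φ ∈ Branching
  · exact (key.1 h) h
  · exact h (key.2 h)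

end diag

instance : PolishSpace Tr := by
  have h1 : SecondCountableTopology (List ℕ → Bool) := inferInstance
  have h2 : TopologicalSpace.IsCompletelyMetrizableSpace (List ℕ → Bool) := inferInstance
  exact @PolishSpace.mk _ _ h1 h2

theorem not_measurable_branching : ¬ @MeasurableSet Tr (borel Tr) Branching := by
  intro h
  let _ : MeasurableSpace Tr := borel Tr
  have _ : BorelSpace Tr := ⟨rfl⟩
  have h1 : AnalyticSet (Branchingᶜ : Set Tr) := h.compl.analyticSet
  rw [AnalyticSet] at h1
  rcases h1 with h1 | ⟨φ, hφ, hr⟩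
  · have h2 : (fun _ => false : Tr) ∈ (Branchingᶜ : Set Tr) := by
      rintro ⟨y, hy⟩
      exact Bool.false_ne_true (hy 0)
    rw [h1] at h2
    exact h2
  · exact not_range_compl φ hφ hr

end Pool.Agent.helper29.KS
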